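import Mathlib

set_option autoImplicit false

open Set Cardinal

namespace Pool.Agent.Helper39.Cp

/-- The first uncountable ordinal, as a well-ordered type. -/
abbrev W1 : Type := (Cardinal.aleph 1).ord.ToType

theorem mk_W1 : #W1 = Cardinal.aleph 1 := by
  rw [Cardinal.mk_toType, Cardinal.card_ord]

theorem countable_Iio (i : W1) : (Iio i).Countable := by
  have h := Cardinal.mk_Iio_lt i (by rw [mk_W1]; exact (Ordinal.type_toType _).symm)
  rw [mk_W1] at h
  by_contra hcon
  rw [← Cardinal.le_aleph0_iff_set_countable, not_le, ← Cardinal.aleph_one_le_iff] at hcon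
  exact absurd h (not_lt.2 hcon)

theorem countable_Iic (i : W1) : (Iic i).Countable := by
  have : Iic i = insert i (Iio i) := by ext; simp [le_iff_eq_or_lt]
  rw [this]
  exact (countable_Iio i).insert i

instance : Uncountable W1 := by
  rw [← Cardinal.aleph0_lt_mk_iff, mk_W1, ← Cardinal.aleph_zero]
  exact Cardinal.aleph_lt_aleph.2 zero_lt_one

instance : Nonempty W1 := by
  by_contra h
  rw [not_nonempty_iff] at h
  exact not_countable (α := W1) inferInstance

/-- An unbounded set of indices is uncountable, and conversely. -/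
theorem exists_upper_of_countable {s : Set W1} (hs : s.Countable) : ∃ i, ∀ j ∈ s, j < i := by
  by_contra h
  push Not at h
  have h2 : (univ : Set W1) ⊆ ⋃ j ∈ s, Iic j := by
    intro i _
    obtain ⟨j, hj, hij⟩ := h i
    exact mem_biUnion hj hij
  have h3 : (univ : Set W1).Countable := (hs.biUnion fun j _ => countable_Iic j).mono h2
  exact not_countable (α := W1) (countable_univ_iff.1 h3)

theorem exists_upper_seq (u : ℕ → W1) : ∃ i, ∀ n, u n < i := by
  obtain ⟨i, hi⟩ := exists_upper_of_countable (countable_range u)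
  exact ⟨i, fun n => hi _ (mem_range_self n)⟩

theorem uncountable_of_unbounded {s : Set W1} (h : ∀ i, ∃ j ∈ s, i ≤ j) : ¬ s.Countable := by
  intro hs
  obtain ⟨i, hi⟩ := exists_upper_of_countable hs
  obtain ⟨j, hj, hij⟩ := h i
  exact absurd (hi j hj) (not_lt.2 hij)

/-- Every uncountable set of indices contains an injective copy of the index set. -/
theorem exists_injection {α : Type} {s : Set α} (hs : ¬ s.Countable) :
    ∃ f : W1 → α, Function.Injective f ∧ ∀ i, f i ∈ s := by
  have h : #W1 ≤ #s := by
    rw [mk_W1, Cardinal.aleph_one_le_iff]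
    rw [← not_le, Cardinal.le_aleph0_iff_set_countable]
    exact hs
  obtain ⟨e⟩ := (Cardinal.le_def _ _).1 h
  exact ⟨fun i => e i, fun i j hij => e.injective (Subtype.ext hij), fun i => (e i).2⟩

theorem exists_equiv_prod : Nonempty (W1 ≃ W1 × W1) := by
  rw [← Cardinal.eq]
  rw [Cardinal.mk_prod, Cardinal.lift_id, mk_W1, Cardinal.mul_eq_self (Cardinal.aleph0_le_aleph 1)]

theorem exists_equiv_prod_nat : Nonempty (W1 ≃ W1 × ℕ) := by
  rw [← Cardinal.eq]
  rw [Cardinal.mk_prod, Cardinal.lift_id, Cardinal.lift_id, mk_W1, Cardinal.mk_nat,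
    Cardinal.mul_aleph0_eq (Cardinal.aleph0_le_aleph 1)]

/-- A map from the index set to a countable type is constant on an uncountable set. -/
theorem exists_uncountable_fiber {α : Type} [Countable α] {s : Set W1} (hs : ¬ s.Countable)
    (f : W1 → α) : ∃ a, ¬ ({i ∈ s | f i = a}).Countable := by
  by_contra h
  push Not at h
  apply hs
  have : s ⊆ ⋃ a, {i ∈ s | f i = a} := by
    intro i hi
    exact mem_iUnion.2 ⟨f i, hi, rfl⟩
  exact (countable_iUnion h).mono this

theorem exists_uncountable_fiber' {α : Type} {t : Set α} (ht : t.Countable) {s : Set W1}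
    (hs : ¬ s.Countable) (f : W1 → α) (hf : ∀ i ∈ s, f i ∈ t) :
    ∃ a, ¬ ({i ∈ s | f i = a}).Countable := by
  by_contra h
  push Not at h
  apply hs
  have : s ⊆ ⋃ a ∈ t, {i ∈ s | f i = a} := by
    intro i hi
    exact mem_biUnion (hf i hi) ⟨hi, rfl⟩
  exact (ht.biUnion fun a _ => h a).mono this

/-- The pressing down argument: a family of statements `P i j` (with `j < i`) which holds for some
`j < i` whenever `i` is a closure point, is uniformly satisfied by one `j` for uncountably many
`i`. -/
theorem exists_pressing {P : W1 → W1 → Prop} (hmono : ∀ i j k, j ≤ k → P i j → P i k)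
    (hP : ∀ g : ℕ → W1, StrictMono g → ∀ i, (∀ n, g n < i) → (∀ j < i, ∃ n, j < g n) →
      ∃ j < i, P i j) : ∃ j, ¬ ({i | P i j}).Countable := by
  by_contra h
  push Not at h
  choose b hb using fun j => exists_upper_of_countable (h j)
  have hb' : ∀ j, ∃ k, j < k ∧ b j ≤ k := by
    intro j
    obtain ⟨k, hk⟩ := exists_upper_of_countable (s := {j, b j}) (by simp)
    exact ⟨k, hk j (by simp), (hk (b j) (by simp)).le⟩
  choose c hc1 hc2 using hb'
  obtain ⟨i0⟩ : Nonempty W1 := inferInstance
  let g : ℕ → W1 := fun n => c^[n] i0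
  have hg : StrictMono g := by
    apply strictMono_nat_of_lt_succ
    intro n
    simp only [g, Function.iterate_succ_apply']
    exact hc1 _
  obtain ⟨u, hu⟩ := exists_upper_seq g
  have hne : {i : W1 | ∀ n, g n < i}.Nonempty := ⟨u, hu⟩
  obtain ⟨i, hi, hmin⟩ := WellFounded.has_min (wellFounded_lt (α := W1)) _ hne
  have hcof : ∀ j < i, ∃ n, j < g n := by
    intro j hj
    by_contra hcon
    push Not at hcon
    have : j ∈ {i : W1 | ∀ n, g n < i} := by
      intro n
      exact (hg (Nat.lt_succ_self n)).trans_le (hcon (n + 1))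
    exact hmin j this hj
  obtain ⟨j, hji, hPij⟩ := hP g hg i hi hcof
  obtain ⟨n, hn⟩ := hcof j hji
  have h1 : i < b (g n) := hb (g n) i (hmono i j (g n) hn.le hPij)
  have h2 : b (g n) ≤ g (n + 1) := by
    simp only [g, Function.iterate_succ_apply']
    exact hc2 _
  exact absurd (hi (n + 1)) (not_lt.2 (h1.le.trans h2))

end Pool.Agent.Helper39.Cp
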