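import Mathlib
import Pool.Agent.Helper39.Cp.W1

set_option autoImplicit false

open Set Topology

namespace Pool.Agent.Helper39.Cp

/-- `C_p(K)`: the continuous real functions on `K` with the topology of pointwise convergence. -/
abbrev CpSpace (K : Type) [TopologicalSpace K] : Type := {g : K → ℝ // Continuous g}

variable {K : Type} [TopologicalSpace K]

/-- `H` is continuous for the topology of pointwise convergence on `M`. -/
def TauCont (M : Set K) (H : CpSpace K → ℝ) : Prop :=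
  ∀ f : CpSpace K, ∀ ε > 0, ∃ F : Finset K, ((F : Set K) ⊆ M) ∧ ∃ δ > 0,
    ∀ g : CpSpace K, (∀ x ∈ F, |g.1 x - f.1 x| < δ) → |H g - H f| < ε

theorem TauCont.mono {M N : Set K} (h : M ⊆ N) {H : CpSpace K → ℝ} (hH : TauCont M H) :
    TauCont N H := by
  intro f ε hε
  obtain ⟨F, hF, δ, hδ, hg⟩ := hH f ε hε
  exact ⟨F, hF.trans h, δ, hδ, hg⟩

theorem TauCont.congr {M : Set K} {H : CpSpace K → ℝ} (hH : TauCont M H) {f g : CpSpace K}
    (h : ∀ x ∈ M, f.1 x = g.1 x) : H f = H g := by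
  by_contra hne
  have hpos : 0 < |H f - H g| := abs_pos.2 (sub_ne_zero.2 hne)
  obtain ⟨F, hF, δ, hδ, hg⟩ := hH g _ hpos
  have := hg f (fun x hx => by rw [h x (hF hx), sub_self, abs_zero]; exact hδ)
  exact absurd this (lt_irrefl _)

theorem exists_pos_le_of_finset {ι : Type} (s : Finset ι) (d : ι → ℝ) (hd : ∀ i ∈ s, 0 < d i) :
    ∃ δ > 0, ∀ i ∈ s, δ ≤ d i := by
  classical
  induction s using Finset.induction_on with
  | empty => exact ⟨1, one_pos, by simp⟩
  | insert a s ha ih =>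
    obtain ⟨δ, hδ, h⟩ := ih fun i hi => hd i (Finset.mem_insert_of_mem hi)
    refine ⟨min δ (d a), lt_min hδ (hd a (Finset.mem_insert_self a s)), fun i hi => ?_⟩
    rcases Finset.mem_insert.1 hi with rfl | hi
    · exact min_le_right _ _
    · exact (min_le_left _ _).trans (h i hi)

theorem tauCont_univ {H : CpSpace K → ℝ} (hH : Continuous H) : TauCont univ H := by
  classical
  intro f ε hε
  have h1 : {g : CpSpace K | |H g - H f| < ε} ∈ 𝓝 f := by
    have := (hH.tendsto f).eventually (Metric.ball_mem_nhds (H f) hε)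
    filter_upwards [this] with g hg
    simpa [Real.dist_eq] using hg
  rw [nhds_subtype, Filter.mem_comap] at h1
  obtain ⟨t, ht, hts⟩ := h1
  rw [nhds_pi, Filter.mem_pi] at ht
  obtain ⟨I, hI, u, hu, hsub⟩ := ht
  have hu' : ∀ x, ∃ d > 0, Metric.ball (f.1 x) d ⊆ u x := fun x => Metric.mem_nhds_iff.1 (hu x)
  choose d hd hball using hu'
  obtain ⟨δ, hδ, hle⟩ := exists_pos_le_of_finset hI.toFinset d (fun i _ => hd i)
  refine ⟨hI.toFinset, subset_univ _, δ, hδ, fun g hg => ?_⟩
  have : g.1 ∈ t := hsub (by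
    intro x hx
    apply hball x
    rw [Metric.mem_ball, Real.dist_eq]
    have hx' : x ∈ hI.toFinset := by simpa using hx
    exact (hg x hx').trans_le (hle x hx'))
  exact hts this

/-- A finite piece of information showing that `H` takes values below `α` and above `β` on two
boxes which agree on `M`. -/
structure Datum (K : Type) [TopologicalSpace K] where
  F : Finset K
  c0 : K → ℚ
  c1 : K → ℚ
  α : ℚ
  β : ℚ
  r : ℚ
  H : CpSpace K → ℝ

/-- The datum is good for `M`. -/
def Datum.Good (M : Set K) (d : Datum K) : Prop :=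
  d.α < d.β ∧ 0 < d.r ∧ (∀ x ∈ d.F, x ∈ M → d.c0 x = d.c1 x) ∧
  (∀ g : CpSpace K, (∀ x ∈ d.F, |g.1 x - d.c0 x| < d.r) → d.H g < d.α) ∧
  (∀ g : CpSpace K, (∀ x ∈ d.F, |g.1 x - d.c1 x| < d.r) → d.β < d.H g)

theorem exists_datum {M : Set K} {H : CpSpace K → ℝ} (hH : TauCont univ H)
    (hM : ¬ TauCont M H) : ∃ d : Datum K, d.H = H ∧ d.Good M := by
  classical
  unfold TauCont at hM
  push Not at hM
  obtain ⟨f, ε, hε, hbad⟩ := hM
  have hε4 : 0 < ε / 4 := by linarith
  obtain ⟨F0, -, δ0, hδ0, h0⟩ := hH f (ε / 4) hε4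
  obtain ⟨g, hgf, hge⟩ := hbad (F0.filter (· ∈ M)) (by
    intro x hx
    simpa using (Finset.mem_filter.1 (Finset.mem_coe.1 hx)).2) (δ0 / 4) (by linarith)
  obtain ⟨F1, -, δ1, hδ1, h1⟩ := hH g (ε / 4) hε4
  have hmin : 0 < min δ0 δ1 / 4 := by
    have := lt_min hδ0 hδ1
    linarith
  obtain ⟨r, hr0, hr1⟩ := exists_rat_btwn hmin
  have hr0' : (0 : ℚ) < r := by exact_mod_cast hr0
  have hrd0 : (r : ℝ) < δ0 / 4 := hr1.trans_le (by have := min_le_left δ0 δ1; linarith)
  have hrd1 : (r : ℝ) < δ1 / 4 := hr1.trans_le (by have := min_le_right δ0 δ1; linarith)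
  have happ : ∀ v : ℝ, ∃ q : ℚ, |v - q| < r := fun v => exists_rat_near v hr0
  choose ap hap using happ
  let cg : K → ℚ := fun x => ap (g.1 x)
  let cf : K → ℚ := fun x => if x ∈ M then ap (g.1 x) else ap (f.1 x)
  have hbox0 : ∀ h : CpSpace K, (∀ x ∈ F0 ∪ F1, |h.1 x - cf x| < r) → |H h - H f| < ε / 4 := by
    intro h hh
    apply h0
    intro x hx
    have hx' := hh x (Finset.mem_union_left _ hx)
    by_cases hxM : x ∈ M
    · have e1 : cf x = ap (g.1 x) := if_pos hxM
      rw [e1] at hx'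
      have e2 := hap (g.1 x)
      have e3 := hgf x (Finset.mem_filter.2 ⟨hx, hxM⟩)
      rw [abs_lt] at *
      constructor <;> linarith [hx'.1, hx'.2, e2.1, e2.2, e3.1, e3.2]
    · have e1 : cf x = ap (f.1 x) := if_neg hxM
      rw [e1] at hx'
      have e2 := hap (f.1 x)
      rw [abs_lt] at *
      constructor <;> linarith [hx'.1, hx'.2, e2.1, e2.2]
  have hbox1 : ∀ h : CpSpace K, (∀ x ∈ F0 ∪ F1, |h.1 x - cg x| < r) → |H h - H g| < ε / 4 := by
    intro h hh
    apply h1
    intro x hx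
    have hx' := hh x (Finset.mem_union_right _ hx)
    have e2 := hap (g.1 x)
    change |h.1 x - (ap (g.1 x) : ℝ)| < r at hx'
    rw [abs_lt] at *
    constructor <;> linarith [hx'.1, hx'.2, e2.1, e2.2]
  have hagree : ∀ x, x ∈ M → cf x = cg x := fun x hx => if_pos hx
  rcases le_abs.1 hge with hcase | hcase
  · obtain ⟨α, hα1, hα2⟩ := exists_rat_btwn (show H f + ε / 4 < H g - ε / 4 by linarith)
    obtain ⟨β, hβ1, hβ2⟩ := exists_rat_btwn hα2
    refine ⟨⟨F0 ∪ F1, cf, cg, α, β, r, H⟩, rfl, by exact_mod_cast hβ1, hr0',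
      fun x _ hx => hagree x hx, fun h hh => ?_, fun h hh => ?_⟩
    · have := hbox0 h hh
      rw [abs_lt] at this
      change H h < α
      linarith [this.2]
    · have := hbox1 h hh
      rw [abs_lt] at this
      change (β : ℝ) < H h
      linarith [this.1]
  · obtain ⟨α, hα1, hα2⟩ := exists_rat_btwn (show H g + ε / 4 < H f - ε / 4 by linarith)
    obtain ⟨β, hβ1, hβ2⟩ := exists_rat_btwn hα2
    refine ⟨⟨F0 ∪ F1, cg, cf, α, β, r, H⟩, rfl, by exact_mod_cast hβ1, hr0',
      fun x _ hx => (hagree x hx).symm, fun h hh => ?_, fun h hh => ?_⟩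
    · have := hbox1 h hh
      rw [abs_lt] at this
      change H h < α
      linarith [this.2]
    · have := hbox0 h hh
      rw [abs_lt] at this
      change (β : ℝ) < H h
      linarith [this.1]

theorem exists_interpolation [CompactSpace K] [T2Space K] (F : Finset K) (v : K → ℝ) :
    ∃ g : CpSpace K, ∀ x ∈ F, g.1 x = v x := by
  classical
  have hF : IsClosed (F : Set K) := F.finite_toSet.isClosed
  have : Finite (F : Set K) := F.finite_toSet
  let φ : C((F : Set K), ℝ) := ⟨fun x => v x, continuous_of_discreteTopology⟩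
  obtain ⟨g, hg⟩ := ContinuousMap.exists_restrict_eq hF φ
  refine ⟨⟨g, g.continuous⟩, fun x hx => ?_⟩
  have := congrArg (fun q : C((F : Set K), ℝ) => q ⟨x, hx⟩) hg
  exact this

/-- The recursively chosen data. -/
noncomputable def datumSeq (D : Set K → Datum K) : W1 → Datum K :=
  WellFounded.fix (wellFounded_lt (α := W1))
    (fun i rec => D (⋃ j : {j // j < i}, ((rec j.1 j.2).F : Set K)))

theorem datumSeq_eq (D : Set K → Datum K) (i : W1) :
    datumSeq D i = D (⋃ j : {j // j < i}, ((datumSeq D j.1).F : Set K)) := by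
  unfold datumSeq
  rw [WellFounded.fix_eq]

theorem exists_splitting [CompactSpace K] [T2Space K] {𝓗 : Set (CpSpace K → ℝ)}
    (h1 : ∀ H ∈ 𝓗, TauCont univ H)
    (h2 : ∀ M : Set K, M.Countable → ∃ H ∈ 𝓗, ¬ TauCont M H) :
    ∃ (H : W1 → CpSpace K → ℝ) (α β : ℝ), α < β ∧ (∀ i, H i ∈ 𝓗) ∧
      ∀ (s : Finset W1) (σ : W1 → Bool), ∃ g : CpSpace K, ∀ i ∈ s,
        (σ i = false → H i g ≤ α) ∧ (σ i = true → β ≤ H i g) := by
  classical
  have hD : ∀ M : Set K, ∃ d : Datum K, M.Countable → d.H ∈ 𝓗 ∧ d.Good M := by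
    intro M
    by_cases hM : M.Countable
    · obtain ⟨H, hH, hHM⟩ := h2 M hM
      obtain ⟨d, hd, hg⟩ := exists_datum (h1 H hH) hHM
      exact ⟨d, fun _ => ⟨hd ▸ hH, hg⟩⟩
    · obtain ⟨H, hH, hHM⟩ := h2 ∅ countable_empty
      obtain ⟨d, hd, hg⟩ := exists_datum (h1 H hH) hHM
      exact ⟨d, fun h => absurd h hM⟩
  choose D hD using hD
  set d := datumSeq D with hd
  set M : W1 → Set K := fun i => ⋃ j : {j // j < i}, ((d j.1).F : Set K) with hMdef
  have hMc : ∀ i, (M i).Countable := by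
    intro i
    have : Countable {j // j < i} := (countable_Iio i).to_subtype
    exact countable_iUnion fun j => (d j.1).F.countable_toSet
  have hdi : ∀ i, (d i).H ∈ 𝓗 ∧ (d i).Good (M i) := by
    intro i
    have := hD (M i) (hMc i)
    rw [hd, datumSeq_eq]
    exact this
  have hFM : ∀ i j, j < i → ((d j).F : Set K) ⊆ M i := by
    intro i j hji x hx
    exact mem_iUnion.2 ⟨⟨j, hji⟩, hx⟩
  have hMmono : ∀ i j, i ≤ j → M i ⊆ M j := by
    intro i j hij x hx
    obtain ⟨k, hk⟩ := mem_iUnion.1 hx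
    exact mem_iUnion.2 ⟨⟨k.1, k.2.trans_le hij⟩, hk⟩
  -- pressing down
  obtain ⟨j0, hj0⟩ := exists_pressing (P := fun i j => ∀ x ∈ (d i).F, x ∈ M i → x ∈ M j)
    (fun i j k hjk h x hx hxi => hMmono j k hjk (h x hx hxi)) (by
      intro g hg i hgi hcof
      have key : ∀ s : Finset K, (∀ x ∈ s, x ∈ M i) → ∃ n, ∀ x ∈ s, x ∈ M (g n) := by
        intro s
        induction s using Finset.induction_on with
        | empty => intro _; exact ⟨0, by simp⟩
        | insert a s ha ih =>
          intro hs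
          obtain ⟨n, hn⟩ := ih fun x hx => hs x (Finset.mem_insert_of_mem hx)
          obtain ⟨⟨k, hk⟩, hak⟩ := mem_iUnion.1 (hs a (Finset.mem_insert_self a s))
          obtain ⟨m, hm⟩ := hcof k hk
          refine ⟨max n m, fun x hx => ?_⟩
          rcases Finset.mem_insert.1 hx with rfl | hx
          · exact hMmono _ _ (hg.monotone (le_max_right n m)) (hFM _ _ hm hak)
          · exact hMmono _ _ (hg.monotone (le_max_left n m)) (hn x hx)
      obtain ⟨n, hn⟩ := key ((d i).F.filter (· ∈ M i)) (fun x hx => (Finset.mem_filter.1 hx).2)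
      exact ⟨g n, hgi n, fun x hx hxi => hn x (Finset.mem_filter.2 ⟨hx, hxi⟩)⟩)
  set J0 : Set W1 := {i | j0 ≤ i ∧ ∀ x ∈ (d i).F, x ∈ M i → x ∈ M j0} with hJ0
  have hJ0c : ¬ J0.Countable := by
    intro hc
    apply hj0
    have : {i | ∀ x ∈ (d i).F, x ∈ M i → x ∈ M j0} ⊆ J0 ∪ Iio j0 := by
      intro i hi
      rcases lt_or_ge i j0 with h | h
      · exact Or.inr h
      · exact Or.inl ⟨h, hi⟩
    exact (hc.union (countable_Iio j0)).mono this
  -- pigeonhole
  let Γ : W1 → Set (K × ℚ) := fun i => {p | p.1 ∈ (d i).F ∧ p.1 ∈ M i ∧ p.2 = (d i).c0 p.1}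
  have hΓ : ∀ i ∈ J0, Γ i ∈ {t : Set (K × ℚ) | t.Finite ∧ t ⊆ M j0 ×ˢ (univ : Set ℚ)} := by
    intro i hi
    constructor
    · apply ((d i).F.finite_toSet.image fun x => (x, (d i).c0 x)).subset
      rintro ⟨x, q⟩ ⟨h1, h2, h3⟩
      exact ⟨x, h1, Prod.ext rfl h3.symm⟩
    · rintro ⟨x, q⟩ ⟨h1, h2, h3⟩
      exact ⟨hi.2 x h1 h2, mem_univ _⟩
  have hcount : {t : Set (K × ℚ) | t.Finite ∧ t ⊆ M j0 ×ˢ (univ : Set ℚ)}.Countable :=
    Set.countable_ofPred_finite_subset ((hMc j0).prod countable_univ)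
  obtain ⟨Γ0, hJ1⟩ := exists_uncountable_fiber' hcount hJ0c Γ hΓ
  obtain ⟨⟨α, β⟩, hJ2⟩ := exists_uncountable_fiber hJ1 (fun i => ((d i).α, (d i).β))
  obtain ⟨r, hJ3⟩ := exists_uncountable_fiber hJ2 (fun i => (d i).r)
  obtain ⟨ι, hι, hιJ⟩ := exists_injection hJ3
  have hJ : ∀ i, ι i ∈ J0 ∧ Γ (ι i) = Γ0 ∧ (d (ι i)).α = α ∧ (d (ι i)).β = β ∧
      (d (ι i)).r = r := by
    intro i
    obtain ⟨⟨⟨h1, h2⟩, h3⟩, h4⟩ := hιJ i
    exact ⟨h1, h2, congrArg Prod.fst h3, congrArg Prod.snd h3, h4⟩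
  refine ⟨fun i => (d (ι i)).H, α, β, ?_, fun i => (hdi (ι i)).1, ?_⟩
  · obtain ⟨i⟩ : Nonempty W1 := inferInstance
    have := (hdi (ι i)).2.1
    rw [(hJ i).2.2.1, (hJ i).2.2.2.1] at this
    exact_mod_cast this
  · intro s σ
    -- the value to be interpolated
    have hcons : ∀ i j x, x ∈ (d (ι i)).F → x ∈ (d (ι j)).F → ι i < ι j →
        (d (ι i)).c0 x = (d (ι j)).c0 x ∧ (d (ι i)).c0 x = (d (ι i)).c1 x ∧
        (d (ι j)).c0 x = (d (ι j)).c1 x := by
      intro i j x hxi hxj hij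
      have hxMj : x ∈ M (ι j) := hFM _ _ hij hxi
      have hx0 : x ∈ M j0 := (hJ j).1.2 x hxj hxMj
      have hxMi : x ∈ M (ι i) := hMmono _ _ (hJ i).1.1 hx0
      have e1 := (hdi (ι i)).2.2.2.1 x hxi hxMi
      have e2 := (hdi (ι j)).2.2.2.1 x hxj hxMj
      have m1 : (x, (d (ι i)).c0 x) ∈ Γ (ι i) := ⟨hxi, hxMi, rfl⟩
      rw [(hJ i).2.1, ← (hJ j).2.1] at m1
      exact ⟨m1.2.2, e1, e2⟩
    let c : W1 → K → ℚ := fun i x => if σ i then (d (ι i)).c1 x else (d (ι i)).c0 x
    have hc0 : ∀ i x, (d (ι i)).c0 x = (d (ι i)).c1 x → c i x = (d (ι i)).c0 x := by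
      intro i x h
      simp only [c]
      split_ifs
      · exact h.symm
      · rfl
    have hc : ∀ i j x, x ∈ (d (ι i)).F → x ∈ (d (ι j)).F → c i x = c j x := by
      intro i j x hxi hxj
      rcases lt_trichotomy (ι i) (ι j) with h | h | h
      · obtain ⟨a1, a2, a3⟩ := hcons i j x hxi hxj h
        rw [hc0 i x a2, hc0 j x a3, a1]
      · rw [hι h]
      · obtain ⟨a1, a2, a3⟩ := hcons j i x hxj hxi h
        rw [hc0 i x a3, hc0 j x a2, a1]
    let v : K → ℝ := fun x => if h : ∃ i ∈ s, x ∈ (d (ι i)).F then (c h.choose x : ℝ) else 0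
    obtain ⟨g, hg⟩ := exists_interpolation (s.biUnion fun i => (d (ι i)).F) v
    refine ⟨g, fun i hi => ?_⟩
    have hgx : ∀ x ∈ (d (ι i)).F, g.1 x = c i x := by
      intro x hx
      rw [hg x (Finset.mem_biUnion.2 ⟨i, hi, hx⟩)]
      have hex : ∃ i ∈ s, x ∈ (d (ι i)).F := ⟨i, hi, hx⟩
      simp only [v, dif_pos hex]
      exact_mod_cast hc _ _ x hex.choose_spec.2 hx
    obtain ⟨-, hr, -, hlow, hhigh⟩ := (hdi (ι i)).2
    have hr' : (0 : ℝ) < (d (ι i)).r := by exact_mod_cast hr
    constructor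
    · intro hσ
      have := hlow g (fun x hx => by
        rw [hgx x hx]
        simp only [c, hσ]
        simpa using hr')
      rw [(hJ i).2.2.1] at this
      exact this.le
    · intro hσ
      have := hhigh g (fun x hx => by
        rw [hgx x hx]
        simp only [c, hσ]
        simpa using hr')
      rw [(hJ i).2.2.2.1] at this
      exact this.le

theorem exists_countable_support [CompactSpace K] [T2Space K] {H : CpSpace K → ℝ}
    (hH : TauCont univ H) : ∃ M : Set K, M.Countable ∧ TauCont M H := by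
  classical
  by_contra hcon
  push Not at hcon
  obtain ⟨H', α, β, hαβ, hH', hpat⟩ := exists_splitting (𝓗 := {H})
    (by rintro _ rfl; exact hH) (fun M hM => ⟨H, rfl, hcon M hM⟩)
  obtain ⟨i, j, hij⟩ : ∃ i j : W1, i ≠ j := by
    obtain ⟨i⟩ : Nonempty W1 := inferInstance
    obtain ⟨j, hj⟩ := exists_upper_of_countable (countable_singleton i)
    exact ⟨i, j, (hj i rfl).ne⟩
  obtain ⟨g, hg⟩ := hpat {i, j} (fun k => decide (k = j))
  have h1 := (hg i (by simp)).1 (by simp [hij])
  have h2 := (hg j (by simp)).2 (by simp)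
  rw [hH' i] at h1
  rw [hH' j] at h2
  linarith

variable {Y : Type} [TopologicalSpace Y] [CompactSpace Y] [T2Space Y]

theorem metrizable_of_countable (φ : CpSpace K → Y)
    (hs : Function.Surjective φ) {M : Set K} (hM : M.Countable)
    (h : ∀ h : C(Y, ℝ), TauCont M (fun f => h (φ f))) :
    TopologicalSpace.MetrizableSpace Y := by
  classical
  have : Countable M := hM.to_subtype
  let ι : Type := Finset (M × ℚ) × ℚ
  let B : ι → Set (CpSpace K) := fun a => {g | ∀ p ∈ a.1, |g.1 p.1 - p.2| < a.2}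
  let C : ι → Set Y := fun a => closure (φ '' B a)
  have hU : ∀ a b : ι, ∃ u : C(Y, ℝ), Disjoint (C a) (C b) → EqOn u 0 (C a) ∧ EqOn u 1 (C b) := by
    intro a b
    by_cases hd : Disjoint (C a) (C b)
    · obtain ⟨u, hu0, hu1, -⟩ := exists_continuous_zero_one_of_isClosed
        (isClosed_closure (s := φ '' B a)) (isClosed_closure (s := φ '' B b)) hd
      exact ⟨u, fun _ => ⟨hu0, hu1⟩⟩
    · exact ⟨0, fun h => absurd h hd⟩
  choose u hu using hU
  let E : Y → (ι × ι → ℝ) := fun y p => u p.1 p.2 y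
  have hE : Continuous E := continuous_pi fun p => (u p.1 p.2).continuous
  have hbox : ∀ (f : CpSpace K) (v : C(Y, ℝ)), ∃ a : ι, φ f ∈ C a ∧
      ∀ y ∈ C a, |v y - v (φ f)| ≤ 1 / 3 := by
    intro f v
    obtain ⟨F, hF, δ, hδ, hg⟩ := h v f (1 / 3) (by norm_num)
    obtain ⟨r, hr0, hr1⟩ := exists_rat_btwn (show (0 : ℝ) < δ / 2 by linarith)
    have happ : ∀ x : K, ∃ q : ℚ, |f.1 x - q| < r := fun x => exists_rat_near _ hr0
    choose ap hap using happ
    let P : Finset (M × ℚ) := F.attach.image fun x => (⟨x.1, hF x.2⟩, ap x.1)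
    have hfB : f ∈ B (P, r) := by
      intro p hp
      obtain ⟨x, -, rfl⟩ := Finset.mem_image.1 hp
      exact hap x.1
    refine ⟨(P, r), subset_closure ⟨f, hfB, rfl⟩, ?_⟩
    have hsub : φ '' B (P, r) ⊆ {y | |v y - v (φ f)| ≤ 1 / 3} := by
      rintro _ ⟨g, hgB, rfl⟩
      refine (hg g fun x hx => ?_).le
      have h1 : |g.1 x - ap x| < r := hgB (⟨x, hF hx⟩, ap x)
        (Finset.mem_image.2 ⟨⟨x, hx⟩, Finset.mem_attach _ _, rfl⟩)
      have h2 := hap x
      rw [abs_lt] at *
      constructor <;> linarith [h1.1, h1.2, h2.1, h2.2]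
    have hcl : IsClosed {y | |v y - v (φ f)| ≤ 1 / 3} := by
      apply isClosed_le
      · fun_prop
      · fun_prop
    exact fun y hy => closure_minimal hsub hcl hy
  have hEinj : Function.Injective E := by
    intro y y' hyy'
    by_contra hne
    obtain ⟨f, rfl⟩ := hs y
    obtain ⟨f', rfl⟩ := hs y'
    obtain ⟨v, hv0, hv1, -⟩ := exists_continuous_zero_one_of_isClosed
      (isClosed_singleton (x := φ f)) (isClosed_singleton (x := φ f'))
      (disjoint_singleton.2 hne)
    have hv0' : v (φ f) = 0 := hv0 rfl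
    have hv1' : v (φ f') = 1 := hv1 rfl
    obtain ⟨a, ha, ha'⟩ := hbox f v
    obtain ⟨b, hb, hb'⟩ := hbox f' v
    have hd : Disjoint (C a) (C b) := by
      rw [Set.disjoint_left]
      intro y hya hyb
      have e1 := ha' y hya
      have e2 := hb' y hyb
      rw [hv0', abs_le] at e1
      rw [hv1', abs_le] at e2
      linarith [e1.1, e1.2, e2.1, e2.2]
    have hu' := hu a b hd
    have e0 : u a b (φ f) = 0 := hu'.1 ha
    have e1 : u a b (φ f') = 1 := hu'.2 hb
    have := congrFun hyy' (a, b)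
    simp only [E] at this
    rw [e0, e1] at this
    exact zero_ne_one this
  have hemb : IsClosedEmbedding E := hE.isClosedEmbedding hEinj
  have : TopologicalSpace.MetrizableSpace (ι × ι → ℝ) :=
    TopologicalSpace.metrizableSpace_of_t3_secondCountable _
  exact hemb.isEmbedding.metrizableSpace

/-- The basic consequence of the existence of a nonmetrizable compact continuous image of
`C_p(K)`: a family of `ℵ₁` functionals, each depending on countably many coordinates, which
realise all patterns. -/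
theorem exists_patterns [CompactSpace K] [T2Space K] (φ : CpSpace K → Y) (hφ : Continuous φ)
    (hs : Function.Surjective φ) (hY : ¬ TopologicalSpace.MetrizableSpace Y) :
    ∃ (H : W1 → CpSpace K → ℝ) (M : W1 → Set K) (α β : ℝ), α < β ∧ (∀ i, (M i).Countable) ∧
      (∀ i, TauCont (M i) (H i)) ∧ ∀ σ : W1 → Bool, ∃ g : CpSpace K, ∀ i,
        (σ i = false → H i g ≤ α) ∧ (σ i = true → β ≤ H i g) := by
  classical
  obtain ⟨H, α, β, hαβ, hH, hpat⟩ := exists_splitting
    (𝓗 := {H : CpSpace K → ℝ | ∃ h : C(Y, ℝ), H = fun f => h (φ f)})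
    (by
      rintro _ ⟨h, rfl⟩
      exact tauCont_univ (h.continuous.comp hφ))
    (by
      intro M hM
      by_contra hcon
      push Not at hcon
      exact hY (metrizable_of_countable φ hs hM fun h => hcon _ ⟨h, rfl⟩))
  choose h hh using hH
  have hsup : ∀ i, ∃ M : Set K, M.Countable ∧ TauCont M (H i) := by
    intro i
    apply exists_countable_support
    rw [hh i]
    exact tauCont_univ ((h i).continuous.comp hφ)
  choose M hM hMH using hsup
  refine ⟨H, M, α, β, hαβ, hM, hMH, fun σ => ?_⟩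
  let C : W1 → Set Y := fun i => if σ i then {y | β ≤ h i y} else {y | h i y ≤ α}
  have hC : ∀ i, IsClosed (C i) := by
    intro i
    simp only [C]
    split_ifs
    · exact isClosed_le continuous_const (h i).continuous
    · exact isClosed_le (h i).continuous continuous_const
  have hne : (⋂ i, C i).Nonempty := by
    by_contra hemp
    rw [not_nonempty_iff_eq_empty] at hemp
    obtain ⟨s, hs'⟩ := isCompact_univ.elim_finite_subfamily_closed C hC (by
      rw [univ_inter]; exact hemp)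
    obtain ⟨g, hg⟩ := hpat s σ
    have : φ g ∈ (univ : Set Y) ∩ ⋂ i ∈ s, C i := by
      refine ⟨mem_univ _, mem_iInter₂.2 fun i hi => ?_⟩
      have := hg i hi
      rw [hh i] at this
      simp only [C]
      cases hσ : σ i
      · simpa [hσ] using this.1 hσ
      · simpa [hσ] using this.2 hσ
    rw [hs'] at this
    exact this
  obtain ⟨y, hy⟩ := hne
  obtain ⟨g, rfl⟩ := hs y
  refine ⟨g, fun i => ?_⟩
  have := mem_iInter.1 hy i
  rw [hh i]
  constructor
  · intro hσ
    simpa [C, hσ] using this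
  · intro hσ
    simpa [C, hσ] using this

end Pool.Agent.Helper39.Cp
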