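import Mathlib
import Pool.Agent.Helper39.Cp.Patterns

set_option autoImplicit false

open Set Topology Filter

namespace Pool.Agent.Helper39.Cp

section Defs

variable (K : Type) [LinearOrder K] [TopologicalSpace K]

/-- The initial segments `S` of `K` which cut `M` into two parts with disjoint closures. -/
def Jump (M : Set K) : Type :=
  {S : LowerSet K // Disjoint (closure ((S : Set K) ∩ M)) (closure (M \ (S : Set K)))}

end Defs

/-- Pairs of rationals `p < q`. -/
abbrev RatPair : Type := {u : ℚ × ℚ // u.1 < u.2}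

/-- Index type of the data coding a continuous function. -/
abbrev DIdx : Type := Unit ⊕ (ℕ × RatPair × ℕ)

variable {K : Type} [LinearOrder K] [TopologicalSpace K]

/-- Natural number coded by an element of `Jump K M ⊕ ℕ`. -/
def num {M : Set K} (e : Jump K M ⊕ ℕ) : ℕ := Sum.elim (fun _ => 0) id e

/-- `m` lies above the lower end point coded by `e`. -/
def LowOK {M : Set K} (x : ℕ → K) (e : Jump K M ⊕ ℕ) (m : K) : Prop :=
  Sum.elim (fun S => m ∉ S.1) (fun k => x k ≤ m) e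

/-- `m` lies below the upper end point coded by `e`. -/
def HiOK {M : Set K} (x : ℕ → K) (e : Jump K M ⊕ ℕ) (m : K) : Prop :=
  Sum.elim (fun S => m ∈ S.1) (fun k => m ≤ x k) e

section Data

variable {M : Set K} (x : ℕ → K) (z : DIdx → Jump K M ⊕ ℕ)

def bound : ℕ := num (z (Sum.inl ()))
def len (u : RatPair) : ℕ := num (z (Sum.inr (0, u, 0)))
def lab (u : RatPair) (s : ℕ) : ℕ := num (z (Sum.inr (3, u, s)))

/-- `m` lies in the `s`-th interval attached to `u`. -/
def InInt (u : RatPair) (s : ℕ) (m : K) : Prop :=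
  LowOK x (z (Sum.inr (1, u, s))) m ∧ HiOK x (z (Sum.inr (2, u, s))) m

/-- Consistency of the data `z` as far as the points of `N` are concerned. -/
structure Consistent (N : Set K) : Prop where
  cov : ∀ m ∈ N, ∀ u, ∃ s < len z u, InInt x z u s m
  con : ∀ m ∈ N, ∀ u, ∀ s < len z u, ∀ v, ∀ t < len z v, InInt x z u s m → lab z u s = 0 →
    InInt x z v t m → lab z v t ≠ 0 → v.1.1 ≤ u.1.2
  bd1 : ∀ u : RatPair, ∀ s < len z u, (bound z : ℚ) ≤ u.1.1 → lab z u s = 0
  bd2 : ∀ u : RatPair, ∀ s < len z u, u.1.2 ≤ -(bound z : ℚ) → lab z u s ≠ 0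

/-- The set of upper bounds for the value at `m` given by the data. -/
def upSet (m : K) : Set ℝ :=
  {r | ∃ u : RatPair, ∃ s < len z u, InInt x z u s m ∧ lab z u s = 0 ∧ r = (u.1.2 : ℝ)}

/-- The decoded value at `m`. -/
noncomputable def dval (m : K) : ℝ := sInf (upSet x z m)

variable {x z} {N : Set K}

theorem upSet_nonempty (hc : Consistent x z N) {m : K} (hm : m ∈ N) :
    ((bound z : ℝ) + 1) ∈ upSet x z m := by
  let u : RatPair := ⟨((bound z : ℚ), (bound z : ℚ) + 1), by simp⟩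
  obtain ⟨s, hs, hin⟩ := hc.cov m hm u
  exact ⟨u, s, hs, hin, hc.bd1 u s hs le_rfl, by simp [u]⟩

theorem le_of_mem_upSet (hc : Consistent x z N) {m : K} (hm : m ∈ N) {v : RatPair} {t : ℕ}
    (ht : t < len z v) (hin : InInt x z v t m) (hl : lab z v t ≠ 0) {r : ℝ}
    (hr : r ∈ upSet x z m) : (v.1.1 : ℝ) ≤ r := by
  obtain ⟨u, s, hs, hin', hl', rfl⟩ := hr
  exact_mod_cast hc.con m hm u s hs v t ht hin' hl' hin hl

theorem upSet_lower (hc : Consistent x z N) {m : K} (hm : m ∈ N) {r : ℝ}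
    (hr : r ∈ upSet x z m) : -(bound z : ℝ) - 1 ≤ r := by
  let v : RatPair := ⟨(-(bound z : ℚ) - 1, -(bound z : ℚ)), by simp⟩
  obtain ⟨s, hs, hin⟩ := hc.cov m hm v
  have := le_of_mem_upSet hc hm hs hin (hc.bd2 v s hs le_rfl) hr
  simpa [v] using this

theorem dval_le (hc : Consistent x z N) {m : K} (hm : m ∈ N) {u : RatPair} {s : ℕ}
    (hs : s < len z u) (hin : InInt x z u s m) (hl : lab z u s = 0) :
    dval x z m ≤ (u.1.2 : ℝ) :=
  csInf_le ⟨_, fun _ hr => upSet_lower hc hm hr⟩ ⟨u, s, hs, hin, hl, rfl⟩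

theorem le_dval (hc : Consistent x z N) {m : K} (hm : m ∈ N) {u : RatPair} {s : ℕ}
    (hs : s < len z u) (hin : InInt x z u s m) (hl : lab z u s ≠ 0) :
    (u.1.1 : ℝ) ≤ dval x z m :=
  le_csInf ⟨_, upSet_nonempty hc hm⟩ fun _ hr => le_of_mem_upSet hc hm hs hin hl hr

theorem dval_le_bound (hc : Consistent x z N) {m : K} (hm : m ∈ N) :
    dval x z m ≤ (bound z : ℝ) + 1 :=
  csInf_le ⟨_, fun _ hr => upSet_lower hc hm hr⟩ (upSet_nonempty hc hm)

theorem bound_le_dval (hc : Consistent x z N) {m : K} (hm : m ∈ N) :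
    -(bound z : ℝ) - 1 ≤ dval x z m :=
  le_csInf ⟨_, upSet_nonempty hc hm⟩ fun _ hr => upSet_lower hc hm hr

/-- The decoded value is the only one compatible with the data. -/
theorem dval_unique (hc : Consistent x z N) {m : K} (hm : m ∈ N) {r : ℝ}
    (h : ∀ u : RatPair, ∀ s < len z u, InInt x z u s m →
      (lab z u s = 0 → r ≤ (u.1.2 : ℝ)) ∧ (lab z u s ≠ 0 → (u.1.1 : ℝ) ≤ r)) :
    dval x z m = r := by
  rcases lt_trichotomy (dval x z m) r with hlt | heq | hgt
  · exfalso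
    obtain ⟨q, hq1, hq2⟩ := exists_rat_btwn hlt
    obtain ⟨p, hp1, hp2⟩ := exists_rat_btwn hq1
    have hpq : p < q := by exact_mod_cast hp2
    obtain ⟨s, hs, hin⟩ := hc.cov m hm ⟨(p, q), hpq⟩
    by_cases hl : lab z ⟨(p, q), hpq⟩ s = 0
    · have := (h _ s hs hin).1 hl
      exact absurd hq2 (not_lt.2 this)
    · have := le_dval hc hm hs hin hl
      exact absurd hp1 (not_lt.2 this)
  · exact heq
  · exfalso
    obtain ⟨q, hq1, hq2⟩ := exists_rat_btwn hgt
    obtain ⟨p, hp1, hp2⟩ := exists_rat_btwn hq1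
    have hpq : p < q := by exact_mod_cast hp2
    obtain ⟨s, hs, hin⟩ := hc.cov m hm ⟨(p, q), hpq⟩
    by_cases hl : lab z ⟨(p, q), hpq⟩ s = 0
    · have := dval_le hc hm hs hin hl
      exact absurd hq2 (not_lt.2 this)
    · have := (h _ s hs hin).2 hl
      exact absurd hp1 (not_lt.2 this)

variable [OrderTopology K]

theorem lowOK_near_mem (hN : N ⊆ M) {x0 : K} (hx0 : x0 ∈ N) {e : Jump K M ⊕ ℕ}
    (he : ¬ LowOK x e x0) : ∀ᶠ m in 𝓝[N] x0, ¬ LowOK x e m := by
  rcases e with S | k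
  · simp only [LowOK, Sum.elim_inl, not_not] at *
    have h1 : x0 ∉ closure (M \ (S.1 : Set K)) :=
      Set.disjoint_left.1 S.2 (subset_closure ⟨he, hN hx0⟩)
    have h2 : (closure (M \ (S.1 : Set K)))ᶜ ∈ 𝓝 x0 := isClosed_closure.isOpen_compl.mem_nhds h1
    filter_upwards [mem_nhdsWithin_of_mem_nhds h2, self_mem_nhdsWithin] with m hm hmN
    by_contra hcon
    exact hm (subset_closure ⟨hN hmN, hcon⟩)
  · simp only [LowOK, Sum.elim_inr, not_le] at *
    exact mem_nhdsWithin_of_mem_nhds (Iio_mem_nhds he)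

theorem hiOK_near_mem (hN : N ⊆ M) {x0 : K} (hx0 : x0 ∈ N) {e : Jump K M ⊕ ℕ}
    (he : ¬ HiOK x e x0) : ∀ᶠ m in 𝓝[N] x0, ¬ HiOK x e m := by
  rcases e with S | k
  · simp only [HiOK, Sum.elim_inl] at *
    have h1 : x0 ∉ closure ((S.1 : Set K) ∩ M) :=
      Set.disjoint_right.1 S.2 (subset_closure ⟨hN hx0, he⟩)
    have h2 : (closure ((S.1 : Set K) ∩ M))ᶜ ∈ 𝓝 x0 := isClosed_closure.isOpen_compl.mem_nhds h1
    filter_upwards [mem_nhdsWithin_of_mem_nhds h2, self_mem_nhdsWithin] with m hm hmN hcon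
    exact hm (subset_closure ⟨hcon, hN hmN⟩)
  · simp only [HiOK, Sum.elim_inr, not_le] at *
    exact mem_nhdsWithin_of_mem_nhds (Ioi_mem_nhds he)

theorem lowOK_dichotomy (hN : N ⊆ M) (hx : ∀ k, x k ∈ N) {x0 : K} (hx0 : x0 ∉ N)
    (e : Jump K M ⊕ ℕ) :
    (∀ᶠ m in 𝓝[N] x0, LowOK x e m) ∨ (∀ᶠ m in 𝓝[N] x0, ¬ LowOK x e m) := by
  rcases e with S | k
  · simp only [LowOK, Sum.elim_inl, not_not]
    by_cases h1 : x0 ∈ closure (M \ (S.1 : Set K))
    · left
      have h1' : x0 ∉ closure ((S.1 : Set K) ∩ M) := Set.disjoint_right.1 S.2 h1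
      have h2 : (closure ((S.1 : Set K) ∩ M))ᶜ ∈ 𝓝 x0 :=
        isClosed_closure.isOpen_compl.mem_nhds h1'
      filter_upwards [mem_nhdsWithin_of_mem_nhds h2, self_mem_nhdsWithin] with m hm hmN hcon
      exact hm (subset_closure ⟨hcon, hN hmN⟩)
    · right
      have h2 : (closure (M \ (S.1 : Set K)))ᶜ ∈ 𝓝 x0 := isClosed_closure.isOpen_compl.mem_nhds h1
      filter_upwards [mem_nhdsWithin_of_mem_nhds h2, self_mem_nhdsWithin] with m hm hmN
      by_contra hcon
      exact hm (subset_closure ⟨hN hmN, hcon⟩)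
  · simp only [LowOK, Sum.elim_inr, not_le]
    rcases lt_trichotomy (x k) x0 with h | h | h
    · left
      filter_upwards [mem_nhdsWithin_of_mem_nhds (Ioi_mem_nhds h)] with m hm using le_of_lt hm
    · exact absurd (h ▸ hx k) hx0
    · right
      exact mem_nhdsWithin_of_mem_nhds (Iio_mem_nhds h)

theorem hiOK_dichotomy (hN : N ⊆ M) (hx : ∀ k, x k ∈ N) {x0 : K} (hx0 : x0 ∉ N)
    (e : Jump K M ⊕ ℕ) :
    (∀ᶠ m in 𝓝[N] x0, HiOK x e m) ∨ (∀ᶠ m in 𝓝[N] x0, ¬ HiOK x e m) := by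
  rcases e with S | k
  · simp only [HiOK, Sum.elim_inl]
    by_cases h1 : x0 ∈ closure (M \ (S.1 : Set K))
    · right
      have h1' : x0 ∉ closure ((S.1 : Set K) ∩ M) := Set.disjoint_right.1 S.2 h1
      have h2 : (closure ((S.1 : Set K) ∩ M))ᶜ ∈ 𝓝 x0 :=
        isClosed_closure.isOpen_compl.mem_nhds h1'
      filter_upwards [mem_nhdsWithin_of_mem_nhds h2, self_mem_nhdsWithin] with m hm hmN hcon
      exact hm (subset_closure ⟨hcon, hN hmN⟩)
    · left
      have h2 : (closure (M \ (S.1 : Set K)))ᶜ ∈ 𝓝 x0 := isClosed_closure.isOpen_compl.mem_nhds h1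
      filter_upwards [mem_nhdsWithin_of_mem_nhds h2, self_mem_nhdsWithin] with m hm hmN
      by_contra hcon
      exact hm (subset_closure ⟨hN hmN, hcon⟩)
  · simp only [HiOK, Sum.elim_inr, not_le]
    rcases lt_trichotomy (x k) x0 with h | h | h
    · right
      exact mem_nhdsWithin_of_mem_nhds (Ioi_mem_nhds h)
    · exact absurd (h ▸ hx k) hx0
    · left
      filter_upwards [mem_nhdsWithin_of_mem_nhds (Iio_mem_nhds h)] with m hm using le_of_lt hm

theorem inInt_dichotomy (hN : N ⊆ M) (hx : ∀ k, x k ∈ N) {x0 : K} (hx0 : x0 ∉ N)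
    (u : RatPair) (s : ℕ) :
    (∀ᶠ m in 𝓝[N] x0, InInt x z u s m) ∨ (∀ᶠ m in 𝓝[N] x0, ¬ InInt x z u s m) := by
  rcases lowOK_dichotomy (x := x) hN hx hx0 (z (Sum.inr (1, u, s))) with h1 | h1
  · rcases hiOK_dichotomy (x := x) hN hx hx0 (z (Sum.inr (2, u, s))) with h2 | h2
    · left
      filter_upwards [h1, h2] with m a b using ⟨a, b⟩
    · right
      filter_upwards [h2] with m b using fun h => b h.2
  · right
    filter_upwards [h1] with m a using fun h => a h.1

theorem inInt_near_mem (hN : N ⊆ M) {x0 : K} (hx0 : x0 ∈ N) {u : RatPair} {s : ℕ}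
    (he : ¬ InInt x z u s x0) : ∀ᶠ m in 𝓝[N] x0, ¬ InInt x z u s m := by
  rw [InInt, not_and_or] at he
  rcases he with h | h
  · filter_upwards [lowOK_near_mem hN hx0 h] with m a using fun h => a h.1
  · filter_upwards [hiOK_near_mem hN hx0 h] with m a using fun h => a h.2

omit [OrderTopology K] in
theorem eventually_lt_len {x0 : K} (u : RatPair) {P : ℕ → K → Prop}
    (h : ∀ s < len z u, ∀ᶠ m in 𝓝[N] x0, P s m) : ∀ᶠ m in 𝓝[N] x0, ∀ s < len z u, P s m := by
  have := (Finset.range (len z u)).eventually_all (l := 𝓝[N] x0) (p := fun s m => P s m)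
  have h2 := this.2 (fun s hs => h s (Finset.mem_range.1 hs))
  filter_upwards [h2] with m hm s hs using hm s (Finset.mem_range.2 hs)

theorem dval_near (hc : Consistent x z N) (hN : N ⊆ M) (hx : ∀ k, x k ∈ N) (x0 : K)
    (u : RatPair) : (∀ᶠ m in 𝓝[N] x0, dval x z m ≤ (u.1.2 : ℝ)) ∨
      (∀ᶠ m in 𝓝[N] x0, (u.1.1 : ℝ) ≤ dval x z m) := by
  have hu : (u.1.1 : ℝ) < u.1.2 := by exact_mod_cast u.2
  by_cases hx0 : x0 ∈ N
  · rcases lt_or_ge (dval x z x0) (u.1.2 : ℝ) with h | h
    · left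
      obtain ⟨p, hp1, hp2⟩ := exists_rat_btwn (max_lt h hu)
      have hpq : p < u.1.2 := by exact_mod_cast hp2
      have h1 : ∀ᶠ m in 𝓝[N] x0, ∀ s < len z ⟨(p, u.1.2), hpq⟩,
          (InInt x z ⟨(p, u.1.2), hpq⟩ s m → lab z ⟨(p, u.1.2), hpq⟩ s = 0) := by
        apply eventually_lt_len
        intro s hs
        by_cases hl : lab z ⟨(p, u.1.2), hpq⟩ s = 0
        · exact Eventually.of_forall fun m _ => hl
        · have : ¬ InInt x z ⟨(p, u.1.2), hpq⟩ s x0 := by
            intro hin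
            have := le_dval hc hx0 hs hin hl
            exact absurd ((le_max_left _ _).trans_lt hp1) (not_lt.2 this)
          filter_upwards [inInt_near_mem hN hx0 this] with m hm hin using absurd hin hm
      filter_upwards [h1, self_mem_nhdsWithin] with m hm hmN
      obtain ⟨s, hs, hin⟩ := hc.cov m hmN ⟨(p, u.1.2), hpq⟩
      exact dval_le (u := ⟨(p, u.1.2), hpq⟩) hc hmN hs hin (hm s hs hin)
    · right
      obtain ⟨q, hq1, hq2⟩ := exists_rat_btwn hu
      have hpq : u.1.1 < q := by exact_mod_cast hq1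
      have h1 : ∀ᶠ m in 𝓝[N] x0, ∀ s < len z ⟨(u.1.1, q), hpq⟩,
          (InInt x z ⟨(u.1.1, q), hpq⟩ s m → lab z ⟨(u.1.1, q), hpq⟩ s ≠ 0) := by
        apply eventually_lt_len
        intro s hs
        by_cases hl : lab z ⟨(u.1.1, q), hpq⟩ s = 0
        · have : ¬ InInt x z ⟨(u.1.1, q), hpq⟩ s x0 := by
            intro hin
            have := dval_le hc hx0 hs hin hl
            exact absurd (hq2.trans_le h) (not_lt.2 this)
          filter_upwards [inInt_near_mem hN hx0 this] with m hm hin using absurd hin hm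
        · exact Eventually.of_forall fun m _ => hl
      filter_upwards [h1, self_mem_nhdsWithin] with m hm hmN
      obtain ⟨s, hs, hin⟩ := hc.cov m hmN ⟨(u.1.1, q), hpq⟩
      exact le_dval (u := ⟨(u.1.1, q), hpq⟩) hc hmN hs hin (hm s hs hin)
  · by_cases hall : ∀ s < len z u, ∀ᶠ m in 𝓝[N] x0, ¬ InInt x z u s m
    · left
      have h1 := eventually_lt_len u hall
      filter_upwards [h1, self_mem_nhdsWithin] with m hm hmN
      obtain ⟨s, hs, hin⟩ := hc.cov m hmN u
      exact absurd hin (hm s hs)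
    · push Not at hall
      obtain ⟨s, hs, hns⟩ := hall
      have hin : ∀ᶠ m in 𝓝[N] x0, InInt x z u s m := by
        rcases inInt_dichotomy (x := x) (z := z) hN hx hx0 u s with h | h
        · exact h
        · exact absurd h hns
      by_cases hl : lab z u s = 0
      · left
        filter_upwards [hin, self_mem_nhdsWithin] with m hm hmN using dval_le hc hmN hs hm hl
      · right
        filter_upwards [hin, self_mem_nhdsWithin] with m hm hmN using le_dval hc hmN hs hm hl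

theorem dval_limit (hc : Consistent x z N) (hN : N ⊆ M) (hx : ∀ k, x k ∈ N) {x0 : K}
    (hx0 : x0 ∈ closure N) : ∃ y, Tendsto (dval x z) (𝓝[N] x0) (𝓝 y) := by
  have hne : (𝓝[N] x0).NeBot := mem_closure_iff_nhdsWithin_neBot.1 hx0
  let T : Set ℝ := {q | ∀ᶠ m in 𝓝[N] x0, dval x z m ≤ q}
  have hT1 : T.Nonempty := ⟨(bound z : ℝ) + 1, by
    filter_upwards [self_mem_nhdsWithin] with m hm using dval_le_bound hc hm⟩
  have hT2 : BddBelow T := by
    refine ⟨-(bound z : ℝ) - 1, fun q hq => ?_⟩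
    have hq' : ∀ᶠ m in 𝓝[N] x0, dval x z m ≤ q := hq
    obtain ⟨m, hm1, hm2⟩ := (hq'.and self_mem_nhdsWithin).exists
    exact (bound_le_dval hc hm2).trans hm1
  refine ⟨sInf T, tendsto_order.2 ⟨fun a ha => ?_, fun b hb => ?_⟩⟩
  · obtain ⟨q, hq1, hq2⟩ := exists_rat_btwn ha
    obtain ⟨p, hp1, hp2⟩ := exists_rat_btwn hq1
    have hpq : p < q := by exact_mod_cast hp2
    rcases dval_near hc hN hx x0 ⟨(p, q), hpq⟩ with h | h
    · exact absurd hq2 (not_lt.2 (csInf_le hT2 h))
    · filter_upwards [h] with m hm using hp1.trans_le hm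
  · obtain ⟨q, hq, hqb⟩ := exists_lt_of_csInf_lt hT1 hb
    filter_upwards [hq] with m hm using hm.trans_lt hqb

/-- Consistent data code a continuous function. -/
theorem exists_decode [CompactSpace K] (hc : Consistent x z N) (hN : N ⊆ M)
    (hx : ∀ k, x k ∈ N) : ∃ g : CpSpace K, ∀ m ∈ N, g.1 m = dval x z m := by
  have hcont : ContinuousOn (extendFrom N (dval x z)) (closure N) :=
    continuousOn_extendFrom subset_rfl fun y hy => dval_limit hc hN hx hy
  let φ : C(closure N, ℝ) := ⟨(closure N).domRestrict (extendFrom N (dval x z)),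
    continuousOn_iff_continuous_domRestrict.1 hcont⟩
  obtain ⟨g, hg⟩ := ContinuousMap.exists_restrict_eq (isClosed_closure (s := N)) φ
  refine ⟨⟨g, g.continuous⟩, fun m hm => ?_⟩
  have h1 : g m = extendFrom N (dval x z) m :=
    congrArg (fun q : C(closure N, ℝ) => q ⟨m, subset_closure hm⟩) hg
  change g m = _
  rw [h1]
  obtain ⟨y, hy⟩ := dval_limit hc hN hx (subset_closure hm)
  rw [extendFrom_eq (subset_closure hm) hy]
  have hpure : Tendsto (dval x z) (pure m) (𝓝 y) := hy.mono_left (pure_le_nhdsWithin hm)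
  exact tendsto_nhds_unique hpure (tendsto_pure_nhds _ _) |>.symm ▸ rfl

end Data

end Pool.Agent.Helper39.Cp
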