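import Mathlib
import Pool.Agent.Helper39.Cp.Decode

set_option autoImplicit false

open Set Topology Filter

namespace Pool.Agent.Helper39.Cp

variable {K : Type} [LinearOrder K] [TopologicalSpace K] {M : Set K}

def LowE (e : Jump K M ⊕ K) (m : K) : Prop := Sum.elim (fun S => m ∉ S.1) (fun a => a ≤ m) e

def HiE (e : Jump K M ⊕ K) (m : K) : Prop := Sum.elim (fun S => m ∈ S.1) (fun a => m ≤ a) e

/-- The end point is a jump or a point of `M`. -/
def EOK (e : Jump K M ⊕ K) : Prop := Sum.elim (fun _ => True) (fun a => a ∈ M) e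

variable [OrderTopology K]

theorem exists_low {V : Set K} {x : K} (hV : V ∈ 𝓝 x) :
    ∃ e : Jump K M ⊕ K, EOK e ∧ (∀ᶠ m in 𝓝 x, m ∈ M → LowE e m) ∧
      (∀ m ∈ M, m ≤ x → LowE e m → m ∈ V) := by
  have hxV : x ∈ V := mem_of_mem_nhds hV
  by_cases hl : ∃ l, l < x
  · obtain ⟨l, hlx, hsub⟩ := exists_Ioc_subset_of_mem_nhds hV hl
    by_cases hA : ∃ m0 ∈ M, l < m0 ∧ m0 < x
    · obtain ⟨m0, hm0, h1, h2⟩ := hA
      refine ⟨Sum.inr m0, hm0, ?_, fun m _ hmx hm => hsub ⟨h1.trans_le hm, hmx⟩⟩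
      filter_upwards [Ioi_mem_nhds h2] with m hm _ using le_of_lt hm
    · push Not at hA
      have hd : Disjoint (closure (((LowerSet.Iio x : LowerSet K) : Set K) ∩ M))
          (closure (M \ ((LowerSet.Iio x : LowerSet K) : Set K))) := by
        have h1 : closure (((LowerSet.Iio x : LowerSet K) : Set K) ∩ M) ⊆ Iic l := by
          apply closure_minimal _ isClosed_Iic
          rintro m ⟨hm1, hm2⟩
          by_contra hcon
          exact absurd hm1 (not_lt.2 (hA m hm2 (not_le.1 hcon)))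
        have h2 : closure (M \ ((LowerSet.Iio x : LowerSet K) : Set K)) ⊆ Ici x := by
          apply closure_minimal _ isClosed_Ici
          rintro m ⟨_, hm2⟩
          exact not_lt.1 hm2
        exact Set.disjoint_left.2 fun a ha hb =>
          absurd (((h2 hb : x ≤ a).trans (h1 ha : a ≤ l)).trans_lt hlx) (lt_irrefl _)
      refine ⟨Sum.inl ⟨LowerSet.Iio x, hd⟩, trivial, ?_, ?_⟩
      · filter_upwards [Ioi_mem_nhds hlx] with m hm hmM
        exact fun h : m < x => absurd h (not_lt.2 (hA m hmM hm))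
      · intro m _ hmx hm
        have : x ≤ m := not_lt.1 hm
        exact le_antisymm hmx this ▸ hxV
  · push Not at hl
    have hbot : ((⊥ : LowerSet K) : Set K) = ∅ := LowerSet.coe_bot
    refine ⟨Sum.inl ⟨⊥, by rw [hbot]; simp⟩, trivial, ?_, ?_⟩
    · exact Eventually.of_forall fun m _ => by simp [LowE]
    · intro m _ hmx _
      exact le_antisymm hmx (hl m) ▸ hxV

theorem exists_hi {V : Set K} {x : K} (hV : V ∈ 𝓝 x) :
    ∃ e : Jump K M ⊕ K, EOK e ∧ (∀ᶠ m in 𝓝 x, m ∈ M → HiE e m) ∧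
      (∀ m ∈ M, x ≤ m → HiE e m → m ∈ V) := by
  have hxV : x ∈ V := mem_of_mem_nhds hV
  by_cases hl : ∃ u, x < u
  · obtain ⟨u, hxu, hsub⟩ := exists_Ico_subset_of_mem_nhds hV hl
    by_cases hA : ∃ m0 ∈ M, x < m0 ∧ m0 < u
    · obtain ⟨m0, hm0, h1, h2⟩ := hA
      refine ⟨Sum.inr m0, hm0, ?_, fun m _ hmx hm => hsub ⟨hmx, lt_of_le_of_lt hm h2⟩⟩
      filter_upwards [Iio_mem_nhds h1] with m hm _ using le_of_lt hm
    · push Not at hA
      have hd : Disjoint (closure (((LowerSet.Iic x : LowerSet K) : Set K) ∩ M))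
          (closure (M \ ((LowerSet.Iic x : LowerSet K) : Set K))) := by
        have h1 : closure (((LowerSet.Iic x : LowerSet K) : Set K) ∩ M) ⊆ Iic x := by
          apply closure_minimal _ isClosed_Iic
          rintro m ⟨hm1, _⟩
          exact hm1
        have h2 : closure (M \ ((LowerSet.Iic x : LowerSet K) : Set K)) ⊆ Ici u := by
          apply closure_minimal _ isClosed_Ici
          rintro m ⟨hm1, hm2⟩
          exact hA m hm1 (not_le.1 hm2)
        exact Set.disjoint_left.2 fun a ha hb =>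
          absurd (((h2 hb : u ≤ a).trans (h1 ha : a ≤ x)).trans_lt hxu) (lt_irrefl _)
      refine ⟨Sum.inl ⟨LowerSet.Iic x, hd⟩, trivial, ?_, ?_⟩
      · filter_upwards [Iio_mem_nhds hxu] with m hm hmM
        by_contra hcon
        have h : x < m := not_le.1 hcon
        exact absurd hm (not_lt.2 (hA m hmM h))
      · intro m _ hmx hm
        exact le_antisymm hmx hm ▸ hxV
  · push Not at hl
    have htop : ((⊤ : LowerSet K) : Set K) = univ := LowerSet.coe_top
    refine ⟨Sum.inl ⟨⊤, by rw [htop]; simp⟩, trivial, ?_, ?_⟩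
    · exact Eventually.of_forall fun m _ => by simp [HiE]
    · intro m _ hmx _
      exact le_antisymm hmx (hl m) ▸ hxV

/-- For a continuous `f` and rationals `p < q` there is a finite list of intervals covering `M`,
each labelled by one of the statements `f ≤ q` (label `0`) and `p ≤ f` (label `1`). -/
theorem exists_list [CompactSpace K] {f : K → ℝ} (hf : Continuous f) {B : ℕ}
    (hB : ∀ k, |f k| ≤ B) (u : RatPair) :
    ∃ l : List ((Jump K M ⊕ K) × (Jump K M ⊕ K) × ℕ),
      (∀ m ∈ M, ∃ a ∈ l, LowE a.1 m ∧ HiE a.2.1 m) ∧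
      (∀ a ∈ l, EOK a.1 ∧ EOK a.2.1 ∧ ∀ m ∈ M, LowE a.1 m → HiE a.2.1 m →
        (a.2.2 = 0 → f m ≤ u.1.2) ∧ (a.2.2 ≠ 0 → (u.1.1 : ℝ) ≤ f m)) ∧
      ((B : ℚ) ≤ u.1.1 → ∀ a ∈ l, a.2.2 = 0) ∧ (u.1.2 ≤ -(B : ℚ) → ∀ a ∈ l, a.2.2 ≠ 0) := by
  have hu : (u.1.1 : ℝ) < u.1.2 := by exact_mod_cast u.2
  have hbot : ((⊥ : LowerSet K) : Set K) = ∅ := LowerSet.coe_bot
  have htop : ((⊤ : LowerSet K) : Set K) = univ := LowerSet.coe_top
  let e0 : Jump K M ⊕ K := Sum.inl ⟨⊥, by rw [hbot]; simp⟩
  let e1 : Jump K M ⊕ K := Sum.inl ⟨⊤, by rw [htop]; simp⟩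
  by_cases h1 : (B : ℚ) ≤ u.1.1
  · refine ⟨[(e0, e1, 0)], fun m _ => ⟨_, List.mem_singleton.2 rfl, ?_, ?_⟩, ?_, ?_, ?_⟩
    · simp [e0, LowE]
    · simp [e1, HiE]
    · intro a ha
      rw [List.mem_singleton.1 ha]
      refine ⟨trivial, trivial, fun m _ _ _ => ⟨fun _ => ?_, fun h => absurd rfl h⟩⟩
      have hb := (abs_le.1 (hB m)).2
      have : (B : ℝ) ≤ u.1.1 := by exact_mod_cast h1
      linarith
    · intro _ a ha
      rw [List.mem_singleton.1 ha]
    · intro h2
      exfalso
      have h3 : (0 : ℚ) ≤ B := Nat.cast_nonneg B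
      have := u.2
      linarith
  by_cases h2 : u.1.2 ≤ -(B : ℚ)
  · refine ⟨[(e0, e1, 1)], fun m _ => ⟨_, List.mem_singleton.2 rfl, ?_, ?_⟩, ?_, ?_, ?_⟩
    · simp [e0, LowE]
    · simp [e1, HiE]
    · intro a ha
      rw [List.mem_singleton.1 ha]
      refine ⟨trivial, trivial, fun m _ _ _ => ⟨fun h => absurd h one_ne_zero, fun _ => ?_⟩⟩
      have hb := (abs_le.1 (hB m)).1
      have : (u.1.2 : ℝ) ≤ -(B : ℝ) := by exact_mod_cast h2
      linarith
    · intro h3
      exact absurd h3 h1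
    · intro _ a ha
      rw [List.mem_singleton.1 ha]
      exact one_ne_zero
  have key : ∃ l : List ((Jump K M ⊕ K) × (Jump K M ⊕ K) × ℕ),
      (∀ m ∈ M, m ∈ (univ : Set K) → ∃ a ∈ l, LowE a.1 m ∧ HiE a.2.1 m) ∧
      (∀ a ∈ l, EOK a.1 ∧ EOK a.2.1 ∧ ∀ m ∈ M, LowE a.1 m → HiE a.2.1 m →
        (a.2.2 = 0 → f m ≤ u.1.2) ∧ (a.2.2 ≠ 0 → (u.1.1 : ℝ) ≤ f m)) := by
    refine isCompact_univ.induction_on (p := fun U : Set K =>
      ∃ l : List ((Jump K M ⊕ K) × (Jump K M ⊕ K) × ℕ),
      (∀ m ∈ M, m ∈ U → ∃ a ∈ l, LowE a.1 m ∧ HiE a.2.1 m) ∧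
      (∀ a ∈ l, EOK a.1 ∧ EOK a.2.1 ∧ ∀ m ∈ M, LowE a.1 m → HiE a.2.1 m →
        (a.2.2 = 0 → f m ≤ u.1.2) ∧ (a.2.2 ≠ 0 → (u.1.1 : ℝ) ≤ f m))) ?_ ?_ ?_ ?_
    · exact ⟨[], fun m _ h => absurd h (notMem_empty m), fun a ha => absurd ha List.not_mem_nil⟩
    · rintro s t hst ⟨l, hl1, hl2⟩
      exact ⟨l, fun m hm hms => hl1 m hm (hst hms), hl2⟩
    · rintro s t ⟨l, hl1, hl2⟩ ⟨l', hl1', hl2'⟩
      refine ⟨l ++ l', ?_, ?_⟩
      · rintro m hm (hms | hmt)
        · obtain ⟨a, ha, h⟩ := hl1 m hm hms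
          exact ⟨a, List.mem_append_left _ ha, h⟩
        · obtain ⟨a, ha, h⟩ := hl1' m hm hmt
          exact ⟨a, List.mem_append_right _ ha, h⟩
      · intro a ha
        rcases List.mem_append.1 ha with ha | ha
        · exact hl2 a ha
        · exact hl2' a ha
    · intro x _
      rcases lt_or_ge (f x) (u.1.2 : ℝ) with h | h
      · have hV : {k | f k < (u.1.2 : ℝ)} ∈ 𝓝 x := (isOpen_lt hf continuous_const).mem_nhds h
        obtain ⟨e, he, he1, he2⟩ := exists_low (M := M) hV
        obtain ⟨e', he', he1', he2'⟩ := exists_hi (M := M) hV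
        refine ⟨{k | k ∈ M → LowE e k ∧ HiE e' k}, ?_, [(e, e', 0)], ?_, ?_⟩
        · apply mem_nhdsWithin_of_mem_nhds
          filter_upwards [he1, he1'] with k a b hk using ⟨a hk, b hk⟩
        · intro m hm hmU
          exact ⟨_, List.mem_singleton.2 rfl, hmU hm⟩
        · intro a ha
          rw [List.mem_singleton.1 ha]
          refine ⟨he, he', fun m hm a1 a2 => ⟨fun _ => ?_, fun h => absurd rfl h⟩⟩
          rcases le_total m x with hmx | hmx
          · exact le_of_lt (he2 m hm hmx a1)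
          · exact le_of_lt (he2' m hm hmx a2)
      · have hV : {k | (u.1.1 : ℝ) < f k} ∈ 𝓝 x :=
          (isOpen_lt continuous_const hf).mem_nhds (hu.trans_le h)
        obtain ⟨e, he, he1, he2⟩ := exists_low (M := M) hV
        obtain ⟨e', he', he1', he2'⟩ := exists_hi (M := M) hV
        refine ⟨{k | k ∈ M → LowE e k ∧ HiE e' k}, ?_, [(e, e', 1)], ?_, ?_⟩
        · apply mem_nhdsWithin_of_mem_nhds
          filter_upwards [he1, he1'] with k a b hk using ⟨a hk, b hk⟩
        · intro m hm hmU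
          exact ⟨_, List.mem_singleton.2 rfl, hmU hm⟩
        · intro a ha
          rw [List.mem_singleton.1 ha]
          refine ⟨he, he', fun m hm a1 a2 => ⟨fun h => absurd h one_ne_zero, fun _ => ?_⟩⟩
          rcases le_total m x with hmx | hmx
          · exact le_of_lt (he2 m hm hmx a1)
          · exact le_of_lt (he2' m hm hmx a2)
  obtain ⟨l, hl1, hl2⟩ := key
  exact ⟨l, fun m hm => hl1 m hm (mem_univ m), hl2, fun h => absurd h h1, fun h => absurd h h2⟩

/-- Translate an end point into an element of `Jump K M ⊕ ℕ`, given a numbering of points. -/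
noncomputable def conv (y : K → ℕ) (e : Jump K M ⊕ K) : Jump K M ⊕ ℕ :=
  Sum.elim (fun S => Sum.inl S) (fun a => Sum.inr (y a)) e

omit [OrderTopology K] in
theorem lowOK_conv {x : ℕ → K} {y : K → ℕ} {e : Jump K M ⊕ K}
    (h : Sum.elim (fun _ => True) (fun a => x (y a) = a) e) (m : K) :
    LowOK x (conv y e) m ↔ LowE e m := by
  rcases e with S | a
  · rfl
  · simp only [Sum.elim_inr] at h
    simp [LowOK, conv, LowE, h]

omit [OrderTopology K] in
theorem hiOK_conv {x : ℕ → K} {y : K → ℕ} {e : Jump K M ⊕ K}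
    (h : Sum.elim (fun _ => True) (fun a => x (y a) = a) e) (m : K) :
    HiOK x (conv y e) m ↔ HiE e m := by
  rcases e with S | a
  · rfl
  · simp only [Sum.elim_inr] at h
    simp [HiOK, conv, HiE, h]

/-- Every continuous function is coded by consistent data, once the countably many points of `M`
which occur as end points are numbered. -/
theorem exists_encode [CompactSpace K] (f : CpSpace K) :
    ∃ A : Set K, A.Countable ∧ A ⊆ M ∧ ∀ (x : ℕ → K), A ⊆ range x →
      ∃ z : DIdx → Jump K M ⊕ ℕ, Consistent x z M ∧ ∀ m ∈ M, dval x z m = f.1 m := by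
  classical
  obtain ⟨B, hB⟩ : ∃ B : ℕ, ∀ k, |f.1 k| ≤ B := by
    have hbd : BddAbove (range fun k => |f.1 k|) :=
      (isCompact_range (f.2.abs)).bddAbove
    obtain ⟨b, hb⟩ := hbd
    obtain ⟨B, hB⟩ := exists_nat_ge b
    exact ⟨B, fun k => (hb (mem_range_self k)).trans hB⟩
  choose l hl1 hl2 hl3 hl4 using fun u : RatPair => exists_list (M := M) f.2 hB u
  let pts : Jump K M ⊕ K → Set K := fun e => Sum.elim (fun _ => ∅) (fun a => {a}) e
  have hpts : ∀ e, (pts e).Countable := by
    rintro (S | a)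
    · exact countable_empty
    · exact countable_singleton a
  let A : Set K := ⋃ u : RatPair, ⋃ a ∈ {a | a ∈ l u}, (pts a.1 ∪ pts a.2.1)
  refine ⟨A, ?_, ?_, ?_⟩
  · refine countable_iUnion fun u => ?_
    have hfin : {a | a ∈ l u}.Finite := (l u).finite_toSet
    exact hfin.countable.biUnion fun a _ => (hpts _).union (hpts _)
  · intro k hk
    simp only [A, mem_iUnion] at hk
    obtain ⟨u, a, ha, hk⟩ := hk
    obtain ⟨h1, h2, -⟩ := hl2 u a ha
    have haux : ∀ e : Jump K M ⊕ K, EOK e → k ∈ pts e → k ∈ M := by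
      rintro (S | b) he hk
      · exact absurd hk (notMem_empty k)
      · rw [mem_singleton_iff.1 hk]
        exact he
    rcases hk with hk | hk
    · exact haux _ h1 hk
    · exact haux _ h2 hk
  · intro x hx
    have hy : ∀ k, ∃ n, k ∈ range x → x n = k := by
      intro k
      by_cases h : k ∈ range x
      · obtain ⟨n, hn⟩ := h
        exact ⟨n, fun _ => hn⟩
      · exact ⟨0, fun h' => absurd h' h⟩
    choose y hy using hy
    have hgood : ∀ u, ∀ a ∈ l u, Sum.elim (fun _ => True) (fun b => x (y b) = b) a.1 ∧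
        Sum.elim (fun _ => True) (fun b => x (y b) = b) a.2.1 := by
      intro u a ha
      have haux : ∀ e : Jump K M ⊕ K, pts e ⊆ A →
          Sum.elim (fun _ => True) (fun b => x (y b) = b) e := by
        rintro (S | b) he
        · trivial
        · exact hy b (hx (he rfl))
      constructor
      · apply haux
        intro k hk
        simp only [A, mem_iUnion]
        exact ⟨u, a, ha, Or.inl hk⟩
      · apply haux
        intro k hk
        simp only [A, mem_iUnion]
        exact ⟨u, a, ha, Or.inr hk⟩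
    let z : DIdx → Jump K M ⊕ ℕ := fun i =>
      match i with
      | Sum.inl _ => Sum.inr B
      | Sum.inr (0, u, _) => Sum.inr (l u).length
      | Sum.inr (1, u, s) => if h : s < (l u).length then conv y ((l u)[s]).1 else Sum.inr 0
      | Sum.inr (2, u, s) => if h : s < (l u).length then conv y ((l u)[s]).2.1 else Sum.inr 0
      | Sum.inr (_ + 3, u, s) => if h : s < (l u).length then Sum.inr ((l u)[s]).2.2 else Sum.inr 0
    have hlen : ∀ u, len z u = (l u).length := fun u => rfl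
    have hbound : bound z = B := rfl
    have hlab : ∀ u s (h : s < (l u).length), lab z u s = ((l u)[s]).2.2 := by
      intro u s h
      simp only [lab, z, dif_pos h, num, Sum.elim_inr, id]
    have hint : ∀ u s (h : s < (l u).length) m,
        InInt x z u s m ↔ (LowE ((l u)[s]).1 m ∧ HiE ((l u)[s]).2.1 m) := by
      intro u s h m
      have hg := hgood u _ (List.getElem_mem h)
      simp only [InInt, z, dif_pos h]
      rw [lowOK_conv hg.1, hiOK_conv hg.2]
    have hcons : Consistent x z M := by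
      refine ⟨?_, ?_, ?_, ?_⟩
      · intro m hm u
        obtain ⟨a, ha, h⟩ := hl1 u m hm
        obtain ⟨s, hs, rfl⟩ := List.getElem_of_mem ha
        exact ⟨s, hs, (hint u s hs m).2 h⟩
      · intro m hm u s hs v t ht hin hl hin' hl'
        rw [hint u s hs m] at hin
        rw [hint v t ht m] at hin'
        rw [hlab u s hs] at hl
        rw [hlab v t ht] at hl'
        have e1 := ((hl2 u _ (List.getElem_mem hs)).2.2 m hm hin.1 hin.2).1 hl
        have e2 := ((hl2 v _ (List.getElem_mem ht)).2.2 m hm hin'.1 hin'.2).2 hl'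
        exact_mod_cast e2.trans e1
      · intro u s hs hb
        rw [hlab u s hs]
        exact hl3 u hb _ (List.getElem_mem hs)
      · intro u s hs hb
        rw [hlab u s hs]
        exact hl4 u hb _ (List.getElem_mem hs)
    refine ⟨z, hcons, fun m hm => dval_unique hcons hm fun u s hs hin => ?_⟩
    rw [hint u s hs m] at hin
    rw [hlab u s hs]
    exact (hl2 u _ (List.getElem_mem hs)).2.2 m hm hin.1 hin.2

end Pool.Agent.Helper39.Cp
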