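import Mathlib
import Pool.Agent.Helper39.Cp.Encode

set_option autoImplicit false

open Set Topology Filter

namespace Pool.Agent.Helper39.Cp

variable {K : Type} [LinearOrder K] [TopologicalSpace K] {M : Set K}

/-- Does the end point lie above the point `m` (natural numbers lie above everything)? -/
def BitS (m : K) (e : Jump K M ⊕ ℕ) : Prop := Sum.elim (fun S => m ∈ S.1) (fun _ => True) e

/-- Is `e` a natural number `≥ k`? -/
def BitN (k : ℕ) (e : Jump K M ⊕ ℕ) : Prop := Sum.elim (fun _ => False) (fun k' => k ≤ k') e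

theorem Consistent.mono {x : ℕ → K} {z : DIdx → Jump K M ⊕ ℕ} {N N' : Set K} (h : N ⊆ N')
    (hc : Consistent x z N') : Consistent x z N :=
  ⟨fun m hm => hc.cov m (h hm), fun m hm => hc.con m (h hm), hc.bd1, hc.bd2⟩

section

variable {X : Type} [TopologicalSpace X] {z : X → DIdx → Jump K M ⊕ ℕ} {N : Set K} {x : ℕ → K}

theorem eventually_iff_of_clopen {s : Set X} (hs : IsClopen s) (w : X) :
    ∀ᶠ w' in 𝓝 w, (w' ∈ s ↔ w ∈ s) := by
  by_cases h : w ∈ s
  · filter_upwards [hs.isOpen.mem_nhds h] with w' hw' using iff_of_true hw' h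
  · filter_upwards [hs.compl.isOpen.mem_nhds h] with w' hw' using iff_of_false hw' h

/-- All bits of the data are locally constant functions. -/
structure BitCont (N : Set K) (z : X → DIdx → Jump K M ⊕ ℕ) : Prop where
  s : ∀ i, ∀ m ∈ N, IsClopen {w | BitS m (z w i)}
  n : ∀ i k, IsClopen {w | BitN k (z w i)}

variable (hz : BitCont N z)

include hz

theorem BitCont.eventually_inr (i : DIdx) (w : X) {k : ℕ} (h : z w i = Sum.inr k) :
    ∀ᶠ w' in 𝓝 w, z w' i = Sum.inr k := by
  filter_upwards [eventually_iff_of_clopen (hz.n i k) w,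
    eventually_iff_of_clopen (hz.n i (k + 1)) w] with w' h1 h2
  have h1' : BitN k (z w' i) := h1.2 (show BitN k (z w i) by rw [h]; exact le_rfl)
  have h2' : ¬ BitN (k + 1) (z w' i) := fun hcon => by
    have : BitN (k + 1) (z w i) := h2.1 hcon
    rw [h] at this
    exact absurd this (by simp [BitN])
  rcases hzw : z w' i with S | k'
  · rw [hzw] at h1'
    exact absurd h1' (by simp [BitN])
  · rw [hzw] at h1' h2'
    simp only [BitN, Sum.elim_inr, not_le] at h1' h2'
    congr 1
    omega

theorem BitCont.eventually_inl (i : DIdx) (w : X) {S : Jump K M} (h : z w i = Sum.inl S) :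
    ∀ᶠ w' in 𝓝 w, ∃ S', z w' i = Sum.inl S' := by
  filter_upwards [eventually_iff_of_clopen (hz.n i 0) w] with w' h1
  have h1' : ¬ BitN 0 (z w' i) := fun hcon => by
    have : BitN 0 (z w i) := h1.1 hcon
    rw [h] at this
    exact absurd this (by simp [BitN])
  rcases hzw : z w' i with S | k'
  · exact ⟨S, rfl⟩
  · rw [hzw] at h1'
    exact absurd (Nat.zero_le _) h1'

theorem BitCont.eventually_num (i : DIdx) (w : X) : ∀ᶠ w' in 𝓝 w, num (z w' i) = num (z w i) := by
  rcases h : z w i with S | k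
  · filter_upwards [hz.eventually_inl i w h] with w' ⟨S', hS'⟩
    rw [hS']
    rfl
  · filter_upwards [hz.eventually_inr i w h] with w' hw'
    rw [hw']

theorem BitCont.eventually_low (i : DIdx) (w : X) {m : K} (hm : m ∈ N) :
    ∀ᶠ w' in 𝓝 w, (LowOK x (z w' i) m ↔ LowOK x (z w i) m) := by
  rcases h : z w i with S | k
  · filter_upwards [hz.eventually_inl i w h, eventually_iff_of_clopen (hz.s i m hm) w]
      with w' ⟨S', hS'⟩ hb
    have hb' : BitS m (z w' i) ↔ BitS m (z w i) := hb
    rw [hS', h] at hb'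
    rw [hS']
    exact not_congr hb'
  · filter_upwards [hz.eventually_inr i w h] with w' hw'
    rw [hw']

theorem BitCont.eventually_hi (i : DIdx) (w : X) {m : K} (hm : m ∈ N) :
    ∀ᶠ w' in 𝓝 w, (HiOK x (z w' i) m ↔ HiOK x (z w i) m) := by
  rcases h : z w i with S | k
  · filter_upwards [hz.eventually_inl i w h, eventually_iff_of_clopen (hz.s i m hm) w]
      with w' ⟨S', hS'⟩ hb
    have hb' : BitS m (z w' i) ↔ BitS m (z w i) := hb
    rw [hS', h] at hb'
    rw [hS']
    exact hb'
  · filter_upwards [hz.eventually_inr i w h] with w' hw'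
    rw [hw']

theorem BitCont.eventually_in (u : RatPair) (s : ℕ) (w : X) {m : K} (hm : m ∈ N) :
    ∀ᶠ w' in 𝓝 w, (InInt x (z w') u s m ↔ InInt x (z w) u s m) := by
  filter_upwards [hz.eventually_low (x := x) (Sum.inr (1, u, s)) w hm,
    hz.eventually_hi (x := x) (Sum.inr (2, u, s)) w hm] with w' h1 h2
  exact and_congr h1 h2

theorem BitCont.eventually_len (u : RatPair) (w : X) :
    ∀ᶠ w' in 𝓝 w, len (z w') u = len (z w) u := hz.eventually_num _ w

theorem BitCont.eventually_lab (u : RatPair) (s : ℕ) (w : X) :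
    ∀ᶠ w' in 𝓝 w, lab (z w') u s = lab (z w) u s := hz.eventually_num _ w

theorem BitCont.isClosed : IsClosed {w | Consistent x (z w) N} := by
  rw [← isOpen_compl_iff, isOpen_iff_mem_nhds]
  intro w hw
  have hw' : ¬ Consistent x (z w) N := hw
  by_cases h1 : ∀ m ∈ N, ∀ u, ∃ s < len (z w) u, InInt x (z w) u s m
  swap
  · push Not at h1
    obtain ⟨m, hm, u, h1⟩ := h1
    have : ∀ᶠ w' in 𝓝 w, ∀ s ∈ Finset.range (len (z w) u), ¬ InInt x (z w') u s m := by
      rw [(Finset.range (len (z w) u)).eventually_all]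
      intro s hs
      filter_upwards [hz.eventually_in (x := x) u s w hm] with w' hw'
      rw [hw']
      exact h1 s (Finset.mem_range.1 hs)
    filter_upwards [this, hz.eventually_len u w] with w' ha hb hcon
    obtain ⟨s, hs, hin⟩ := Consistent.cov hcon m hm u
    rw [hb] at hs
    exact ha s (Finset.mem_range.2 hs) hin
  by_cases h2 : ∀ m ∈ N, ∀ u, ∀ s < len (z w) u, ∀ v, ∀ t < len (z w) v,
      InInt x (z w) u s m → lab (z w) u s = 0 → InInt x (z w) v t m → lab (z w) v t ≠ 0 →
      v.1.1 ≤ u.1.2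
  swap
  · push Not at h2
    obtain ⟨m, hm, u, s, hs, v, t, ht, a1, a2, a3, a4, a5⟩ := h2
    filter_upwards [hz.eventually_len u w, hz.eventually_len v w,
      hz.eventually_in (x := x) u s w hm, hz.eventually_in (x := x) v t w hm,
      hz.eventually_lab u s w, hz.eventually_lab v t w] with w' b1 b2 b3 b4 b5 b6 hcon
    have := Consistent.con hcon m hm u s (b1 ▸ hs) v t (b2 ▸ ht) (b3.2 a1) (b5 ▸ a2) (b4.2 a3)
      (b6 ▸ a4)
    exact absurd a5 (not_lt.2 this)
  by_cases h3 : ∀ u : RatPair, ∀ s < len (z w) u, (bound (z w) : ℚ) ≤ u.1.1 → lab (z w) u s = 0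
  swap
  · push Not at h3
    obtain ⟨u, s, hs, a1, a2⟩ := h3
    filter_upwards [hz.eventually_len u w, hz.eventually_num (Sum.inl ()) w,
      hz.eventually_lab u s w] with w' b1 b2 b3 hcon
    have b2' : bound (z w') = bound (z w) := b2
    have := Consistent.bd1 hcon u s (b1 ▸ hs) (b2' ▸ a1)
    rw [b3] at this
    exact a2 this
  by_cases h4 : ∀ u : RatPair, ∀ s < len (z w) u, u.1.2 ≤ -(bound (z w) : ℚ) →
      lab (z w) u s ≠ 0
  swap
  · push Not at h4
    obtain ⟨u, s, hs, a1, a2⟩ := h4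
    filter_upwards [hz.eventually_len u w, hz.eventually_num (Sum.inl ()) w,
      hz.eventually_lab u s w] with w' b1 b2 b3 hcon
    have b2' : bound (z w') = bound (z w) := b2
    have := Consistent.bd2 hcon u s (b1 ▸ hs) (b2' ▸ a1)
    rw [b3] at this
    exact this a2
  exact absurd ⟨h1, h2, h3, h4⟩ hw'

theorem BitCont.tendsto_dval {w : X} (hw : Consistent x (z w) N) {m : K} (hm : m ∈ N) :
    Tendsto (fun w' => dval x (z w') m) (𝓝[{w | Consistent x (z w) N}] w)
      (𝓝 (dval x (z w) m)) := by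
  refine tendsto_order.2 ⟨fun a ha => ?_, fun b hb => ?_⟩
  · obtain ⟨q, hq1, hq2⟩ := exists_rat_btwn ha
    obtain ⟨p, hp1, hp2⟩ := exists_rat_btwn hq1
    have hpq : p < q := by exact_mod_cast hp2
    set u : RatPair := ⟨(p, q), hpq⟩
    obtain ⟨s, hs, hin⟩ := hw.cov m hm u
    have hl : lab (z w) u s ≠ 0 := by
      intro hl
      have := dval_le hw hm hs hin hl
      exact absurd hq2 (not_lt.2 this)
    filter_upwards [mem_nhdsWithin_of_mem_nhds (hz.eventually_len u w),
      mem_nhdsWithin_of_mem_nhds (hz.eventually_in (x := x) u s w hm),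
      mem_nhdsWithin_of_mem_nhds (hz.eventually_lab u s w), self_mem_nhdsWithin]
      with w' b1 b2 b3 hcon
    have b1' : len (z w') u = len (z w) u := b1
    have b2' : InInt x (z w') u s m ↔ InInt x (z w) u s m := b2
    have b3' : lab (z w') u s = lab (z w) u s := b3
    have := le_dval (u := u) hcon hm (b1' ▸ hs) (b2'.2 hin) (b3' ▸ hl)
    exact hp1.trans_le this
  · obtain ⟨q, hq1, hq2⟩ := exists_rat_btwn hb
    obtain ⟨p, hp1, hp2⟩ := exists_rat_btwn hq1
    have hpq : p < q := by exact_mod_cast hp2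
    set u : RatPair := ⟨(p, q), hpq⟩
    obtain ⟨s, hs, hin⟩ := hw.cov m hm u
    have hl : lab (z w) u s = 0 := by
      by_contra hl
      have := le_dval hw hm hs hin hl
      exact absurd hp1 (not_lt.2 this)
    filter_upwards [mem_nhdsWithin_of_mem_nhds (hz.eventually_len u w),
      mem_nhdsWithin_of_mem_nhds (hz.eventually_in (x := x) u s w hm),
      mem_nhdsWithin_of_mem_nhds (hz.eventually_lab u s w), self_mem_nhdsWithin]
      with w' b1 b2 b3 hcon
    have b1' : len (z w') u = len (z w) u := b1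
    have b2' : InInt x (z w') u s m ↔ InInt x (z w) u s m := b2
    have b3' : lab (z w') u s = lab (z w) u s := b3
    have := dval_le (u := u) hcon hm (b1' ▸ hs) (b2'.2 hin) (b3' ▸ hl)
    exact this.trans_lt hq2

/-- A functional depending on the points of `N` only can be read off from the data, in a
continuous way. -/
theorem BitCont.exists_extension [OrderTopology K] [CompactSpace K] [NormalSpace X]
    (hN : N ⊆ M) (hx : ∀ k, x k ∈ N) {H : CpSpace K → ℝ} (hH : TauCont N H) :
    ∃ h : C(X, ℝ), ∀ w, Consistent x (z w) N → ∀ g : CpSpace K,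
      (∀ m ∈ N, g.1 m = dval x (z w) m) → h w = H g := by
  classical
  set 𝒞 : Set X := {w | Consistent x (z w) N} with h𝒞
  have hdec : ∀ w : 𝒞, ∃ g : CpSpace K, ∀ m ∈ N, g.1 m = dval x (z w.1) m := fun w =>
    exists_decode (show Consistent x (z w.1) N from w.2) hN hx
  choose G hG using hdec
  have hcont : Continuous fun w : 𝒞 => H (G w) := by
    rw [continuous_iff_continuousAt]
    intro w
    rw [ContinuousAt, Metric.tendsto_nhds]
    intro ε hε
    obtain ⟨F, hF, δ, hδ, hg⟩ := hH (G w) ε hε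
    have h1 : ∀ᶠ w' : 𝒞 in 𝓝 w, ∀ m ∈ F, |dval x (z w'.1) m - dval x (z w.1) m| < δ := by
      rw [F.eventually_all]
      intro m hm
      have ht := hz.tendsto_dval (x := x) (w := w.1) w.2 (hF hm)
      have ht2 : Tendsto (fun w' : 𝒞 => dval x (z w'.1) m) (𝓝 w) (𝓝 (dval x (z w.1) m)) := by
        have := tendsto_nhdsWithin_iff_subtype w.2 (fun w' => dval x (z w') m)
          (𝓝 (dval x (z w.1) m))
        exact this.1 ht
      have := (Metric.tendsto_nhds.1 ht2) δ hδ
      filter_upwards [this] with w' hw'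
      rwa [Real.dist_eq] at hw'
    filter_upwards [h1] with w' hw'
    rw [Real.dist_eq]
    apply hg
    intro m hm
    rw [hG w' m (hF hm), hG w m (hF hm)]
    exact hw' m hm
  obtain ⟨h, hh⟩ := ContinuousMap.exists_restrict_eq (hz.isClosed (x := x))
    (⟨fun w : 𝒞 => H (G w), hcont⟩ : C(𝒞, ℝ))
  refine ⟨h, fun w hw g hg => ?_⟩
  have h1 : h w = H (G ⟨w, hw⟩) := congrArg (fun q : C(𝒞, ℝ) => q ⟨w, hw⟩) hh
  rw [h1]
  exact hH.congr fun m hm => by rw [hG ⟨w, hw⟩ m hm, hg m hm]

end

end Pool.Agent.Helper39.Cp
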