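import Mathlib
import Pool.Agent.Helper39.Cp.Extend

set_option autoImplicit false

open Set Topology Filter

namespace Pool.Agent.Helper39.Cp

theorem continuous_cantorFunction {c : ℝ} (h0 : 0 ≤ c) (h1 : c < 1) :
    Continuous (Cardinal.cantorFunction c) := by
  unfold Cardinal.cantorFunction
  refine continuous_tsum (u := fun n => c ^ n) ?_ (summable_geometric_of_lt_one h0 h1) ?_
  · intro n
    have : (fun f : ℕ → Bool => Cardinal.cantorFunctionAux c f n) =
        (fun b : Bool => cond b (c ^ n) 0) ∘ fun f : ℕ → Bool => f n := rfl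
    rw [this]
    exact continuous_of_discreteTopology.comp (continuous_apply n)
  · intro n f
    rw [Cardinal.cantorFunctionAux]
    cases f n
    · simp only [cond_false, norm_zero]
      positivity
    · simp only [cond_true, norm_pow, Real.norm_eq_abs, abs_of_nonneg h0, le_refl]

theorem isClosedEmbedding_cantorFunction :
    IsClosedEmbedding (Cardinal.cantorFunction (1 / 3)) :=
  (continuous_cantorFunction (by norm_num) (by norm_num)).isClosedEmbedding
    (Cardinal.cantorFunction_injective (by norm_num) (by norm_num))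

variable {K : Type} [LinearOrder K] [TopologicalSpace K] {M : Set K}

open Classical in
/-- The sequence of bits of `e` relative to the points `ν k`. -/
noncomputable def bitSeq (ν : ℕ → K) (e : Jump K M ⊕ ℕ) : ℕ → Bool := fun n =>
  if n % 2 = 0 then decide (BitS (ν (n / 2)) e) else decide (BitN (n / 2) e)

/-- The bits packed into a real number. -/
noncomputable def cant (ν : ℕ → K) (e : Jump K M ⊕ ℕ) : ℝ :=
  Cardinal.cantorFunction (1 / 3) (bitSeq ν e)

/-- The topology on the set of data in which the bits are continuous. -/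
@[reducible] noncomputable def dataTop (ν : ℕ → K) : TopologicalSpace (DIdx → Jump K M ⊕ ℕ) :=
  TopologicalSpace.induced (fun z i => cant ν (z i)) inferInstance

theorem normalSpace_dataTop (ν : ℕ → K) : @NormalSpace _ (dataTop (M := M) ν) := by
  let _ := dataTop (M := M) ν
  have h : IsInducing (fun (z : DIdx → Jump K M ⊕ ℕ) i => cant ν (z i)) := ⟨rfl⟩
  have : TopologicalSpace.PseudoMetrizableSpace (DIdx → Jump K M ⊕ ℕ) :=
    h.pseudoMetrizableSpace
  infer_instance

theorem bitCont_dataTop (ν : ℕ → K) :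
    @BitCont K _ _ M _ (dataTop (M := M) ν) (range ν) id := by
  let _ := dataTop (M := M) ν
  have h : IsInducing (fun (z : DIdx → Jump K M ⊕ ℕ) i => cant ν (z i)) := ⟨rfl⟩
  have hb : ∀ i n, Continuous fun z : DIdx → Jump K M ⊕ ℕ => bitSeq ν (z i) n := by
    intro i n
    have h1 : Continuous fun z : DIdx → Jump K M ⊕ ℕ => cant ν (z i) :=
      (continuous_apply i).comp h.continuous
    have h2 : Continuous fun z : DIdx → Jump K M ⊕ ℕ => bitSeq ν (z i) :=
      isClosedEmbedding_cantorFunction.isInducing.continuous_iff.2 h1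
    exact (continuous_apply n).comp h2
  constructor
  · rintro i m ⟨k, rfl⟩
    have h1 := (isClopen_discrete {true}).preimage (hb i (2 * k))
    have h2 : (fun z : DIdx → Jump K M ⊕ ℕ => bitSeq ν (z i) (2 * k)) ⁻¹' {true} =
        {w : DIdx → Jump K M ⊕ ℕ | BitS (ν k) (w i)} := by
      ext w
      simp [bitSeq]
    rwa [h2] at h1
  · intro i k
    have h1 := (isClopen_discrete {true}).preimage (hb i (2 * k + 1))
    have h2 : (fun z : DIdx → Jump K M ⊕ ℕ => bitSeq ν (z i) (2 * k + 1)) ⁻¹' {true} =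
        {w : DIdx → Jump K M ⊕ ℕ | BitN k (w i)} := by
      ext w
      have e1 : (2 * k + 1) % 2 = 1 := by omega
      have e2 : (2 * k + 1) / 2 = k := by omega
      simp [bitSeq, e1, e2]
    rwa [h2] at h1

/-- Rescaling and clamping. -/
noncomputable def clampAB (α β t : ℝ) : ℝ := max 0 (min 1 ((t - α) / (β - α)))

theorem clampAB_continuous (α β : ℝ) : Continuous (clampAB α β) := by
  unfold clampAB
  fun_prop

theorem clampAB_low {α β t : ℝ} (h : α < β) (ht : t ≤ α) : clampAB α β t = 0 := by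
  have h1 : (t - α) / (β - α) ≤ 0 :=
    div_nonpos_of_nonpos_of_nonneg (by linarith) (by linarith)
  unfold clampAB
  rw [max_eq_left]
  exact (min_le_right _ _).trans h1

theorem clampAB_high {α β t : ℝ} (h : α < β) (ht : β ≤ t) : clampAB α β t = 1 := by
  have h1 : 1 ≤ (t - α) / (β - α) := by
    rw [le_div_iff₀ (by linarith)]
    linarith
  unfold clampAB
  rw [min_eq_left h1, max_eq_right zero_le_one]

variable [OrderTopology K] [CompactSpace K]

/-- From a nonmetrizable compact continuous image of `C_p(K)` to a coding of all `0`-`1` patterns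
by sequences of jumps and natural numbers. -/
theorem exists_coding [Nonempty K] {Y : Type} [TopologicalSpace Y] [CompactSpace Y] [T2Space Y]
    (φ : CpSpace K → Y) (hφ : Continuous φ) (hs : Function.Surjective φ)
    (hY : ¬ TopologicalSpace.MetrizableSpace Y) :
    ∃ M' : W1 → Set K, (∀ i, (M' i).Countable) ∧ Monotone M' ∧
      ∃ (ν : W1 → ℕ → K) (h : W1 → (DIdx → Jump K (⋃ i, M' i) ⊕ ℕ) → ℝ),
        (∀ j, range (ν j) ⊆ ⋃ i, M' i) ∧
        (∀ j, @Continuous _ _ (dataTop (ν j)) _ (h j)) ∧
        ∀ τ : W1 → Bool, ∃ z, ∀ j, h j z = if τ j then 1 else 0 := by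
  classical
  obtain ⟨H, M0, α, β, hαβ, hM0, hH, hpat⟩ := exists_patterns φ hφ hs hY
  obtain ⟨k0⟩ : Nonempty K := inferInstance
  let M' : W1 → Set K := fun i => insert k0 (⋃ j ∈ Iic i, M0 j)
  have hM'c : ∀ i, (M' i).Countable := fun i =>
    ((countable_Iic i).biUnion fun j _ => hM0 j).insert k0
  have hM'm : Monotone M' := by
    intro i j hij
    apply insert_subset_insert
    exact biUnion_subset_biUnion_left (Iic_subset_Iic.2 hij)
  have hM0M' : ∀ i, M0 i ⊆ M' i := fun i k hk =>
    Or.inr (mem_biUnion (mem_Iic.2 le_rfl) hk)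
  set M : Set K := ⋃ i, M' i with hM
  obtain ⟨e⟩ := exists_equiv_prod
  have hx : ∀ i0, ∃ x : ℕ → K, M' i0 = range x := fun i0 =>
    (hM'c i0).exists_eq_range ⟨k0, Or.inl rfl⟩
  choose x hx using hx
  let N : W1 → W1 → Set K := fun i0 j => M0 (e.symm (i0, j)) ∪ M' i0
  have hN : ∀ i0 j, ∃ ν : ℕ → K, N i0 j = range ν := fun i0 j =>
    ((hM0 _).union (hM'c i0)).exists_eq_range ⟨k0, Or.inr (Or.inl rfl)⟩
  choose ν hν using hN
  have hNM : ∀ i0 j, N i0 j ⊆ M := by
    intro i0 j k hk
    rcases hk with hk | hk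
    · exact mem_iUnion.2 ⟨_, hM0M' _ hk⟩
    · exact mem_iUnion.2 ⟨_, hk⟩
  have hext : ∀ i0 j, ∃ h : (DIdx → Jump K M ⊕ ℕ) → ℝ, @Continuous _ _ (dataTop (ν i0 j)) _ h ∧
      ∀ w, Consistent (x i0) w (N i0 j) → ∀ g : CpSpace K,
      (∀ m ∈ N i0 j, g.1 m = dval (x i0) w m) → h w = H (e.symm (i0, j)) g := by
    intro i0 j
    let _ := dataTop (M := M) (ν i0 j)
    have := normalSpace_dataTop (M := M) (ν i0 j)
    have hb := bitCont_dataTop (M := M) (ν i0 j)
    rw [← hν] at hb
    obtain ⟨h, hh⟩ := hb.exists_extension (x := x i0) (hNM i0 j)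
      (fun k => Or.inr ((hx i0).symm ▸ mem_range_self k))
      ((hH (e.symm (i0, j))).mono subset_union_left)
    exact ⟨h, h.continuous, hh⟩
  choose h hh1 hh2 using hext
  have key : ∃ i0, ∀ τ : W1 → Bool, ∃ z, ∀ j,
      clampAB α β (h i0 j z) = if τ j then 1 else 0 := by
    by_contra hcon
    push Not at hcon
    choose τ hτ using hcon
    obtain ⟨g, hg⟩ := hpat fun i => τ (e i).1 (e i).2
    obtain ⟨A, hA, hAM, henc⟩ := exists_encode (M := M) g
    have hAi : ∀ a : K, ∃ i, a ∈ A → a ∈ M' i := by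
      intro a
      by_cases ha : a ∈ A
      · obtain ⟨i, hi⟩ := mem_iUnion.1 (hAM ha)
        exact ⟨i, fun _ => hi⟩
      · obtain ⟨i⟩ : Nonempty W1 := inferInstance
        exact ⟨i, fun h => absurd h ha⟩
    choose ia hia using hAi
    obtain ⟨i0, hi0⟩ := exists_upper_of_countable (hA.image ia)
    have hAx : A ⊆ range (x i0) := by
      rw [← hx]
      intro a ha
      exact hM'm (hi0 _ (mem_image_of_mem ia ha)).le (hia a ha)
    obtain ⟨z, hz1, hz2⟩ := henc (x i0) hAx
    obtain ⟨j, hj⟩ := hτ i0 z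
    apply hj
    have h1 := hh2 i0 j z (hz1.mono (hNM i0 j)) g fun m hm => (hz2 m (hNM i0 j hm)).symm
    rw [h1]
    have h2 := hg (e.symm (i0, j))
    simp only [Equiv.apply_symm_apply] at h2
    cases hb : τ i0 j
    · rw [clampAB_low hαβ (h2.1 hb)]
      simp
    · rw [clampAB_high hαβ (h2.2 hb)]
      simp
  obtain ⟨i0, hi0⟩ := key
  refine ⟨M', hM'c, hM'm, ν i0, fun j z => clampAB α β (h i0 j z), fun j => ?_, fun j => ?_, hi0⟩
  · rw [← hν]
    exact hNM i0 j
  · let _ := dataTop (M := M) (ν i0 j)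
    exact (clampAB_continuous α β).comp (hh1 i0 j)

end Pool.Agent.Helper39.Cp
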