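import Mathlib
import Pool.Agent.Helper39.Cp.Assemble

set_option autoImplicit false

open Set Topology Filter Cardinal

namespace Pool.Agent.Helper39.Cp

variable {K : Type} [LinearOrder K]

/-- `(x, y)` is a gap of `A` which cannot be approached by a countable subset of `A` from the left,
nor by a countable subset of `A` from the right: `x < y`, no point of `A` lies strictly between `x`
and `y`, `x` is the supremum of the points of `A` below it and `y` is the infimum of the points of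
`A` above it, but no countable set of such points has supremum `x` or infimum `y`. -/
structure IsBigGap (A : Set K) (x y : K) : Prop where
  lt : x < y
  gap : ∀ a ∈ A, a ≤ x ∨ y ≤ a
  lub : IsLUB (A ∩ Iic x) x
  glb : IsGLB (A ∩ Ici y) y
  cof : ∀ C ⊆ A ∩ Iic x, C.Countable → ∃ a ∈ A ∩ Iic x, ∀ c ∈ C, c < a
  coi : ∀ C ⊆ A ∩ Ici y, C.Countable → ∃ a ∈ A ∩ Ici y, ∀ c ∈ C, a < c

/-- A countable part of `M` is cofinal in the lower part of the cut `S`. -/
def LowSmall (M N : Set K) (S : LowerSet K) : Prop :=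
  ∀ m ∈ M, m ∈ S → ∃ m' ∈ N, m' ∈ S ∧ m ≤ m'

/-- A countable part of `M` is coinitial in the upper part of the cut `S`. -/
def UpSmall (M N : Set K) (S : LowerSet K) : Prop :=
  ∀ m ∈ M, m ∉ S → ∃ m' ∈ N, m' ∉ S ∧ m' ≤ m

theorem LowSmall.mono {M N N' : Set K} {S : LowerSet K} (h : N ⊆ N') (hS : LowSmall M N S) :
    LowSmall M N' S := fun m hm hmS =>
  let ⟨m', h1, h2⟩ := hS m hm hmS
  ⟨m', h h1, h2⟩

theorem UpSmall.mono {M N N' : Set K} {S : LowerSet K} (h : N ⊆ N') (hS : UpSmall M N S) :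
    UpSmall M N' S := fun m hm hmS =>
  let ⟨m', h1, h2⟩ := hS m hm hmS
  ⟨m', h h1, h2⟩

theorem mk_le_of_subset_range {α : Type} {s : Set α} {g : W1 → α} (h : s ⊆ range g) :
    #s ≤ aleph 1 :=
  (mk_le_mk_of_subset h).trans (mk_range_le.trans_eq mk_W1)

theorem mk_iUnion_le {α : Type} {N : W1 → Set α} (hN : ∀ i, (N i).Countable) :
    #(⋃ i, N i : Set α) ≤ aleph 1 := by
  refine (Cardinal.mk_iUnion_le_sum_mk).trans ?_
  have h1 : Cardinal.sum (fun i : W1 => #(N i)) ≤ Cardinal.sum fun _ : W1 => ℵ₀ :=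
    Cardinal.sum_le_sum _ _ fun i => (hN i).le_aleph0
  refine h1.trans ?_
  rw [Cardinal.sum_const, Cardinal.lift_id, Cardinal.lift_id, mk_W1]
  exact (Cardinal.mul_aleph0_eq (Cardinal.aleph0_le_aleph 1)).le

theorem mk_prod_le {α β : Type} {s : Set α} {t : Set β} (hs : #s ≤ aleph 1) (ht : #t ≤ aleph 1) :
    #(s × t) ≤ aleph 1 := by
  rw [Cardinal.mk_prod, Cardinal.lift_id, Cardinal.lift_id]
  calc #s * #t ≤ aleph 1 * aleph 1 := mul_le_mul' hs ht
    _ = aleph 1 := Cardinal.mul_eq_self (Cardinal.aleph0_le_aleph 1)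

variable [TopologicalSpace K] [OrderTopology K] [CompactSpace K]

/-- There are at most `ℵ₁` traces of cuts which are not determined by a countable part. -/
theorem mk_traces_le {M' : W1 → Set K} (hc : ∀ i, (M' i).Countable) (hm : Monotone M')
    (hg : #{p : K × K | IsBigGap (⋃ i, M' i) p.1 p.2} ≤ aleph 1) :
    #{T : Set K | ∃ S : Jump K (⋃ i, M' i), (¬ ∃ i, LowSmall (⋃ i, M' i) (M' i) S.1 ∧
      UpSmall (⋃ i, M' i) (M' i) S.1) ∧ T = {m | m ∈ (⋃ i, M' i) ∧ m ∈ S.1}} ≤ aleph 1 := by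
  classical
  set M : Set K := ⋃ i, M' i with hM
  have hMle : #M ≤ aleph 1 := mk_iUnion_le hc
  have huniv : #(univ : Set W1) ≤ aleph 1 := by
    rw [Cardinal.mk_univ, mk_W1]
  let f1 : W1 × M → Set K := fun p => {m | m ∈ M ∧ ¬ ∃ m' ∈ M' p.1, p.2.1 ≤ m' ∧ m' ≤ m}
  let f2 : W1 × M → Set K := fun p => {m | m ∈ M ∧ ∃ m' ∈ M' p.1, m' ≤ p.2.1 ∧ m ≤ m'}
  have hcard : #(W1 × M) ≤ aleph 1 := by
    rw [Cardinal.mk_prod, Cardinal.lift_id, Cardinal.lift_id, mk_W1]
    calc aleph 1 * #M ≤ aleph 1 * aleph 1 := mul_le_mul' le_rfl hMle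
      _ = aleph 1 := Cardinal.mul_eq_self (Cardinal.aleph0_le_aleph 1)
  have hr1 : #(range f1) ≤ aleph 1 := Cardinal.mk_range_le.trans hcard
  have hr2 : #(range f2) ≤ aleph 1 := Cardinal.mk_range_le.trans hcard
  let f3 : K × K → Set K := fun p => {m | m ∈ M ∧ m ≤ p.1}
  have hr3 : #(f3 '' {p : K × K | IsBigGap M p.1 p.2}) ≤ aleph 1 := Cardinal.mk_image_le.trans hg
  have hsub : {T : Set K | ∃ S : Jump K M, (¬ ∃ i, LowSmall M (M' i) S.1 ∧
      UpSmall M (M' i) S.1) ∧ T = {m | m ∈ M ∧ m ∈ S.1}} ⊆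
      (range f1 ∪ range f2) ∪ f3 '' {p : K × K | IsBigGap M p.1 p.2} := by
    rintro T ⟨S, hS, rfl⟩
    have hlt : ∀ m ∈ S.1, ∀ m' ∉ S.1, m < m' := fun m hm1 m' hm2 => by
      by_contra hcon
      exact hm2 (S.1.lower (not_lt.1 hcon) hm1)
    by_cases hU : ∃ i, UpSmall M (M' i) S.1
    · left; left
      obtain ⟨i, hi⟩ := hU
      have hL : ¬ LowSmall M (M' i) S.1 := fun h => hS ⟨i, h, hi⟩
      unfold LowSmall at hL
      push Not at hL
      obtain ⟨a, haM, haS, ha⟩ := hL
      refine ⟨(i, ⟨a, haM⟩), ?_⟩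
      ext m
      simp only [f1, mem_ofPred_eq]
      refine and_congr_right fun hmM => ?_
      constructor
      · intro h
        by_contra hmS
        obtain ⟨m', h1, h2, h3⟩ := hi m hmM hmS
        exact h ⟨m', h1, (hlt a haS m' h2).le, h3⟩
      · rintro hmS ⟨m', h1, h2, h3⟩
        have hm'S : m' ∈ S.1 := S.1.lower h3 hmS
        exact absurd h2 (not_le.2 (ha m' h1 hm'S))
    · by_cases hL : ∃ i, LowSmall M (M' i) S.1
      · left; right
        obtain ⟨i, hi⟩ := hL
        have hU' : ¬ UpSmall M (M' i) S.1 := fun h => hU ⟨i, h⟩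
        unfold UpSmall at hU'
        push Not at hU'
        obtain ⟨a, haM, haS, ha⟩ := hU'
        refine ⟨(i, ⟨a, haM⟩), ?_⟩
        ext m
        simp only [f2, mem_ofPred_eq]
        refine and_congr_right fun hmM => ?_
        constructor
        · rintro ⟨m', h1, h2, h3⟩
          by_contra hmS
          have hm'S : m' ∉ S.1 := fun h => hmS (S.1.lower h3 h)
          exact absurd h2 (not_le.2 (ha m' h1 hm'S))
        · intro hmS
          obtain ⟨m', h1, h2, h3⟩ := hi m hmM hmS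
          exact ⟨m', h1, (hlt m' h2 a haS).le, h3⟩
      · right
        push Not at hU hL
        have hctb : ∀ C ⊆ M, C.Countable → ∃ i, C ⊆ M' i := by
          intro C hCM hC
          have : ∀ c : K, ∃ i, c ∈ C → c ∈ M' i := by
            intro c
            by_cases h : c ∈ C
            · obtain ⟨i, hi⟩ := mem_iUnion.1 (hCM h)
              exact ⟨i, fun _ => hi⟩
            · obtain ⟨i⟩ : Nonempty W1 := inferInstance
              exact ⟨i, fun h' => absurd h' h⟩
          choose ι hι using this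
          obtain ⟨i, hi⟩ := exists_upper_of_countable (hC.image ι)
          exact ⟨i, fun c hcC => hm (hi _ (mem_image_of_mem ι hcC)).le (hι c hcC)⟩
        have hLa : ∀ C ⊆ M, C.Countable → ∃ a ∈ M, a ∈ S.1 ∧ ∀ c ∈ C, c ∈ S.1 → c < a := by
          intro C hCM hC
          obtain ⟨i, hi⟩ := hctb C hCM hC
          have h := hL i
          unfold LowSmall at h
          push Not at h
          obtain ⟨a, h1, h2, h3⟩ := h
          exact ⟨a, h1, h2, fun c hc hcS => h3 c (hi hc) hcS⟩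
        have hUa : ∀ C ⊆ M, C.Countable → ∃ a ∈ M, a ∉ S.1 ∧ ∀ c ∈ C, c ∉ S.1 → a < c := by
          intro C hCM hC
          obtain ⟨i, hi⟩ := hctb C hCM hC
          have h := hU i
          unfold UpSmall at h
          push Not at h
          obtain ⟨a, h1, h2, h3⟩ := h
          exact ⟨a, h1, h2, fun c hc hcS => h3 c (hi hc) hcS⟩
        obtain ⟨a0, ha0, ha0S, -⟩ := hLa ∅ (empty_subset _) countable_empty
        obtain ⟨b0, hb0, hb0S, -⟩ := hUa ∅ (empty_subset _) countable_empty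
        obtain ⟨x, hx, hxl⟩ := (isClosed_closure (s := (S.1 : Set K) ∩ M)).isCompact.exists_isLUB
          ⟨a0, subset_closure ⟨ha0S, ha0⟩⟩
        obtain ⟨y, hy, hyl⟩ := (isClosed_closure (s := M \ (S.1 : Set K))).isCompact.exists_isGLB
          ⟨b0, subset_closure ⟨hb0, hb0S⟩⟩
        rw [IsLUB, upperBounds_closure] at hxl
        rw [IsGLB, lowerBounds_closure] at hyl
        have hxy : x ≤ y := by
          apply hyl.2
          rintro b ⟨_, hb⟩
          apply hxl.2
          rintro a ⟨ha, _⟩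
          exact (hlt a ha b hb).le
        have hne : x ≠ y := fun h => Set.disjoint_left.1 S.2 hx (h ▸ hy)
        have hxy' : x < y := lt_of_le_of_ne hxy hne
        have hgap : ∀ a ∈ M, (a ∈ S.1 → a ≤ x) ∧ (a ∉ S.1 → y ≤ a) := fun a ha =>
          ⟨fun h => hxl.1 ⟨h, ha⟩, fun h => hyl.1 ⟨ha, h⟩⟩
        have hSx : ∀ a ∈ M, (a ∈ S.1 ↔ a ≤ x) := fun a ha =>
          ⟨(hgap a ha).1, fun h => by
            by_contra hcon
            exact absurd ((hgap a ha).2 hcon) (not_le.2 (h.trans_lt hxy'))⟩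
        have hSy : ∀ a ∈ M, (a ∉ S.1 ↔ y ≤ a) := fun a ha =>
          ⟨(hgap a ha).2, fun h hcon =>
            absurd ((hgap a ha).1 hcon) (not_le.2 (hxy'.trans_le h))⟩
        have e1 : M ∩ Iic x = (S.1 : Set K) ∩ M := by
          ext a
          constructor
          · rintro ⟨h1, h2⟩
            exact ⟨(hSx a h1).2 h2, h1⟩
          · rintro ⟨h1, h2⟩
            exact ⟨h2, (hSx a h2).1 h1⟩
        have e2 : M ∩ Ici y = M \ (S.1 : Set K) := by
          ext a
          constructor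
          · rintro ⟨h1, h2⟩
            exact ⟨h1, (hSy a h1).2 h2⟩
          · rintro ⟨h1, h2⟩
            exact ⟨h1, (hSy a h1).1 h2⟩
        refine ⟨(x, y), ⟨hxy', ?_, ?_, ?_, ?_, ?_⟩, ?_⟩
        · intro a ha
          by_cases h : a ∈ S.1
          · exact Or.inl ((hgap a ha).1 h)
          · exact Or.inr ((hgap a ha).2 h)
        · change IsLUB (M ∩ Iic x) x
          rw [e1]
          exact hxl
        · change IsGLB (M ∩ Ici y) y
          rw [e2]
          exact hyl
        · intro C hCM hC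
          obtain ⟨a, h1, h2, h3⟩ := hLa C (fun c hc => (hCM hc).1) hC
          exact ⟨a, ⟨h1, (hSx a h1).1 h2⟩, fun c hc => h3 c hc ((hSx c (hCM hc).1).2 (hCM hc).2)⟩
        · intro C hCM hC
          obtain ⟨a, h1, h2, h3⟩ := hUa C (fun c hc => (hCM hc).1) hC
          exact ⟨a, ⟨h1, (hSy a h1).1 h2⟩, fun c hc => h3 c hc ((hSy c (hCM hc).1).2 (hCM hc).2)⟩
        · ext m
          simp only [f3, mem_ofPred_eq]
          exact and_congr_right fun hmM => (hSx m hmM).symm
  refine (mk_le_mk_of_subset hsub).trans ?_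
  refine (Cardinal.mk_union_le _ _).trans ?_
  have h12 : #(range f1 ∪ range f2 : Set (Set K)) ≤ aleph 1 := by
    refine (Cardinal.mk_union_le _ _).trans ?_
    exact (add_le_add hr1 hr2).trans
      (Cardinal.add_eq_self (Cardinal.aleph0_le_aleph 1)).le
  exact (add_le_add h12 hr3).trans (Cardinal.add_eq_self (Cardinal.aleph0_le_aleph 1)).le

end Pool.Agent.Helper39.Cp
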