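import Mathlib
import Pool.Agent.Helper39.Cp.Few

set_option autoImplicit false

open Set Topology Filter Cardinal

namespace Pool.Agent.Helper39.Cp

variable {K : Type} [LinearOrder K] [TopologicalSpace K] {M : Set K}

/-- A continuous function of the data depends on finitely many bits only, up to a small error. -/
theorem finite_bits (ν : ℕ → K) {h : (DIdx → Jump K M ⊕ ℕ) → ℝ}
    (hh : @Continuous _ _ (dataTop (M := M) ν) _ h) (z : DIdx → Jump K M ⊕ ℕ) {r : ℝ}
    (hr : r < h z) : ∃ B : Finset (DIdx × ℕ), ∀ w : DIdx → Jump K M ⊕ ℕ,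
      (∀ p ∈ B, bitSeq ν (w p.1) p.2 = bitSeq ν (z p.1) p.2) → r < h w := by
  classical
  let _ := dataTop (M := M) ν
  have hF : IsInducing (fun (z : DIdx → Jump K M ⊕ ℕ) i => cant ν (z i)) := ⟨rfl⟩
  have hmap : IsInducing (Pi.map fun _ : DIdx => Cardinal.cantorFunction (1 / 3)) :=
    IsInducing.piMap fun _ => isClosedEmbedding_cantorFunction.isInducing
  have hF' : IsInducing (fun (z : DIdx → Jump K M ⊕ ℕ) i => bitSeq ν (z i)) := by
    rw [← hmap.of_comp_iff]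
    exact hF
  have hopen : IsOpen {w : DIdx → Jump K M ⊕ ℕ | r < h w} := isOpen_lt continuous_const hh
  obtain ⟨U, hU, hUeq⟩ := hF'.isOpen_iff.1 hopen
  have hzU : (fun i => bitSeq ν (z i)) ∈ U := by
    have : z ∈ (fun (z : DIdx → Jump K M ⊕ ℕ) i => bitSeq ν (z i)) ⁻¹' U := by
      rw [hUeq]
      exact hr
    exact this
  obtain ⟨I, u, hu, hIU⟩ := isOpen_pi_iff.1 hU _ hzU
  have hJ : ∀ i : DIdx, ∃ J : Finset ℕ, i ∈ I → ∀ b : ℕ → Bool,
      (∀ k ∈ J, b k = bitSeq ν (z i) k) → b ∈ u i := by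
    intro i
    by_cases hi : i ∈ I
    · obtain ⟨h1, h2⟩ := hu i hi
      obtain ⟨J, v, hv, hJv⟩ := isOpen_pi_iff.1 h1 _ h2
      refine ⟨J, fun _ b hb => hJv fun k hk => ?_⟩
      rw [hb k hk]
      exact (hv k hk).2
    · exact ⟨∅, fun h => absurd h hi⟩
  choose J hJ using hJ
  refine ⟨I.biUnion fun i => (J i).image fun k => (i, k), fun w hw => ?_⟩
  have hwU : (fun i => bitSeq ν (w i)) ∈ U := by
    apply hIU
    intro i hi
    apply hJ i hi
    intro k hk
    exact hw (i, k) (Finset.mem_biUnion.2 ⟨i, hi, Finset.mem_image.2 ⟨k, hk, rfl⟩⟩)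
  have : w ∈ (fun (z : DIdx → Jump K M ⊕ ℕ) i => bitSeq ν (z i)) ⁻¹' U := hwU
  rw [hUeq] at this
  exact this

/-- Codes for approximations of end points. -/
abbrev Code (N : Set K) (i : W1) : Type := ℕ ⊕ (Iic i) ⊕ (N × Bool) ⊕ Unit

/-- The trace of a cut. -/
def trace (M : Set K) (S : LowerSet K) : Set K := {m | m ∈ M ∧ m ∈ S}

/-- The end point `e` satisfies what the code says. -/
def Sat {N : Set K} {i : W1} (c : Set K → W1) (T0 : Set (Set K)) (γ : Code N i)
    (e : Jump K M ⊕ ℕ) : Prop :=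
  match γ with
  | Sum.inl n => e = Sum.inr n
  | Sum.inr (Sum.inl η) => ∃ S, e = Sum.inl S ∧ trace M S.1 ∈ T0 ∧ c (trace M S.1) = η
  | Sum.inr (Sum.inr (Sum.inl (m', true))) => ∃ S, e = Sum.inl S ∧ m'.1 ∈ S.1
  | Sum.inr (Sum.inr (Sum.inl (m', false))) => ∃ S, e = Sum.inl S ∧ m'.1 ∉ S.1
  | Sum.inr (Sum.inr (Sum.inr _)) => ∃ S, e = Sum.inl S

/-- The end point `e` belongs to the `i`-th level. -/
def Good (N : Set K) (i : W1) (c : Set K → W1) (T0 : Set (Set K)) (e : Jump K M ⊕ ℕ) : Prop :=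
  ∀ S, e = Sum.inl S → (LowSmall M N S.1 ∧ UpSmall M N S.1) ∨
    (trace M S.1 ∈ T0 ∧ c (trace M S.1) ≤ i)

theorem exists_code {N : Set K} {i : W1} {c : Set K → W1} {T0 : Set (Set K)} (hc : InjOn c T0)
    {ν : ℕ → K} (hν : range ν ⊆ M) {e : Jump K M ⊕ ℕ} (he : Good N i c T0 e) (k : ℕ) :
    ∃ γ : Code N i, Sat c T0 γ e ∧ ∀ e' : Jump K M ⊕ ℕ, Sat c T0 γ e' →
      bitSeq ν e' k = bitSeq ν e k := by
  classical
  have hodd : ∀ (S S' : Jump K M), k % 2 ≠ 0 →
      bitSeq ν (Sum.inl S' : Jump K M ⊕ ℕ) k = bitSeq ν (Sum.inl S : Jump K M ⊕ ℕ) k := by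
    intro S S' hk
    unfold bitSeq
    rw [if_neg hk, if_neg hk]
    simp [BitN]
  have heven : ∀ (S S' : Jump K M), k % 2 = 0 → (ν (k / 2) ∈ S'.1 ↔ ν (k / 2) ∈ S.1) →
      bitSeq ν (Sum.inl S' : Jump K M ⊕ ℕ) k = bitSeq ν (Sum.inl S : Jump K M ⊕ ℕ) k := by
    intro S S' hk h
    unfold bitSeq
    rw [if_pos hk, if_pos hk]
    simp [BitS, h]
  rcases e with S | n
  · rcases he S rfl with ⟨hL, hU⟩ | ⟨hT, hle⟩
    · by_cases hk : k % 2 = 0
      · have hm : ν (k / 2) ∈ M := hν (mem_range_self _)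
        by_cases hmS : ν (k / 2) ∈ S.1
        · obtain ⟨m', h1, h2, h3⟩ := hL _ hm hmS
          refine ⟨Sum.inr (Sum.inr (Sum.inl (⟨m', h1⟩, true))), ⟨S, rfl, h2⟩, ?_⟩
          rintro e' ⟨S', rfl, h'⟩
          exact heven S S' hk (iff_of_true (S'.1.lower h3 h') hmS)
        · obtain ⟨m', h1, h2, h3⟩ := hU _ hm hmS
          refine ⟨Sum.inr (Sum.inr (Sum.inl (⟨m', h1⟩, false))), ⟨S, rfl, h2⟩, ?_⟩
          rintro e' ⟨S', rfl, h'⟩
          exact heven S S' hk (iff_of_false (fun h => h' (S'.1.lower h3 h)) hmS)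
      · refine ⟨Sum.inr (Sum.inr (Sum.inr ())), ⟨S, rfl⟩, ?_⟩
        rintro e' ⟨S', rfl⟩
        exact hodd S S' hk
    · refine ⟨Sum.inr (Sum.inl ⟨c (trace M S.1), hle⟩), ⟨S, rfl, hT, rfl⟩, ?_⟩
      rintro e' ⟨S', rfl, hT', hcc⟩
      have htr : trace M S'.1 = trace M S.1 := hc hT' hT hcc
      by_cases hk : k % 2 = 0
      · have hm : ν (k / 2) ∈ M := hν (mem_range_self _)
        refine heven S S' hk ?_
        have h1 : ν (k / 2) ∈ trace M S'.1 ↔ ν (k / 2) ∈ trace M S.1 := by rw [htr]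
        constructor
        · intro h
          exact (h1.1 ⟨hm, h⟩).2
        · intro h
          exact (h1.2 ⟨hm, h⟩).2
      · exact hodd S S' hk
  · refine ⟨Sum.inl n, rfl, ?_⟩
    rintro e' rfl
    rfl

/-- The coding of all patterns is impossible when there are few traces which are not determined by
a countable part. -/
theorem no_coding {M' : W1 → Set K} (hc : ∀ i, (M' i).Countable) (hm : Monotone M')
    {T0 : Set (Set K)} (hT0 : T0 = {T : Set K | ∃ S : Jump K M,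
      (¬ ∃ i, LowSmall M (M' i) S.1 ∧ UpSmall M (M' i) S.1) ∧ T = {m | m ∈ M ∧ m ∈ S.1}})
    (hT : #T0 ≤ aleph 1)
    (ν : W1 → ℕ → K) (h : W1 → (DIdx → Jump K M ⊕ ℕ) → ℝ)
    (hν : ∀ j, range (ν j) ⊆ M) (hh : ∀ j, @Continuous _ _ (dataTop (ν j)) _ (h j))
    (hpat : ∀ τ : W1 → Bool, ∃ z, ∀ j, h j z = if τ j then 1 else 0) : False := by
  classical
  obtain ⟨i00⟩ : Nonempty W1 := inferInstance
  have hinj : ∃ c : Set K → W1, InjOn c T0 := by
    rw [← mk_W1] at hT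
    obtain ⟨f⟩ := (Cardinal.le_def _ _).1 hT
    refine ⟨fun T => if hT' : T ∈ T0 then f ⟨T, hT'⟩ else i00, fun T hT1 T' hT2 hTT => ?_⟩
    simp only [dif_pos hT1, dif_pos hT2] at hTT
    exact congrArg Subtype.val (f.injective hTT)
  obtain ⟨c, hcinj⟩ := hinj
  have hgood : ∀ e : Jump K M ⊕ ℕ, ∃ i, ∀ i' ≥ i, Good (M' i') i' c T0 e := by
    intro e
    rcases e with S | n
    · by_cases hS : ∃ i, LowSmall M (M' i) S.1 ∧ UpSmall M (M' i) S.1
      · obtain ⟨i, h1, h2⟩ := hS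
        refine ⟨i, fun i' hi' S' hS' => Or.inl ?_⟩
        obtain rfl : S = S' := Sum.inl_injective hS'
        exact ⟨h1.mono (hm hi'), h2.mono (hm hi')⟩
      · refine ⟨c (trace M S.1), fun i' hi' S' hS' => Or.inr ?_⟩
        obtain rfl : S = S' := Sum.inl_injective hS'
        refine ⟨?_, hi'⟩
        rw [hT0]
        exact ⟨S, hS, rfl⟩
    · exact ⟨i00, fun i' _ S' hS' => absurd hS' (by simp)⟩
  choose lv hlv using hgood
  obtain ⟨e2⟩ := exists_equiv_prod
  have key : ∃ i0, ∀ τ : W1 → Bool, ∃ z : DIdx → Jump K M ⊕ ℕ,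
      (∀ d, Good (M' i0) i0 c T0 (z d)) ∧ ∀ j, h (e2.symm (i0, j)) z = if τ j then 1 else 0 := by
    by_contra hcon
    push Not at hcon
    choose τ hτ using hcon
    obtain ⟨z, hz⟩ := hpat fun i => τ (e2 i).1 (e2 i).2
    obtain ⟨i0, hi0⟩ := exists_upper_of_countable (countable_range fun d => lv (z d))
    obtain ⟨j, hj⟩ := hτ i0 z fun d => hlv (z d) i0 (hi0 _ (mem_range_self d)).le
    apply hj
    rw [hz]
    simp
  obtain ⟨i0, hi0⟩ := key
  choose z hz1 hz2 using fun i : W1 => hi0 fun j => decide (j = i)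
  have hone : ∀ i, h (e2.symm (i0, i)) (z i) = 1 := fun i => by rw [hz2]; simp
  have hzero : ∀ i j, i ≠ j → h (e2.symm (i0, i)) (z j) = 0 := fun i j hij => by
    rw [hz2]
    simp [hij]
  have hB : ∀ i, ∃ B : Finset (DIdx × ℕ), ∀ w : DIdx → Jump K M ⊕ ℕ,
      (∀ p ∈ B, bitSeq (ν (e2.symm (i0, i))) (w p.1) p.2 =
        bitSeq (ν (e2.symm (i0, i))) (z i p.1) p.2) → (0 : ℝ) < h (e2.symm (i0, i)) w := by
    intro i
    exact finite_bits _ (hh _) (z i) (by rw [hone]; exact one_pos)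
  choose B hB using hB
  choose γ hγ1 hγ2 using fun (i : W1) (p : DIdx × ℕ) =>
    exists_code hcinj (hν (e2.symm (i0, i))) (hz1 i p.1) p.2
  let 𝒦 : W1 → Finset (DIdx × Code (M' i0) i0) := fun i => (B i).image fun p => (p.1, γ i p)
  have hcode : Countable (Code (M' i0) i0) := by
    have h1 : Countable (M' i0) := (hc i0).to_subtype
    have h2 : Countable (Iic i0) := (countable_Iic i0).to_subtype
    infer_instance
  have hnot : ¬ Function.Injective 𝒦 := by
    intro hinj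
    have : Countable W1 := hinj.countable
    exact not_countable this
  unfold Function.Injective at hnot
  push Not at hnot
  obtain ⟨i, j, hij, hne⟩ := hnot
  have hpos : (0 : ℝ) < h (e2.symm (i0, i)) (z j) := by
    apply hB i
    intro p hp
    apply hγ2 i p
    have hmem : (p.1, γ i p) ∈ 𝒦 j := by
      rw [← hij]
      exact Finset.mem_image.2 ⟨p, hp, rfl⟩
    obtain ⟨p', hp', hpp⟩ := Finset.mem_image.1 hmem
    have h1 : p'.1 = p.1 := (Prod.mk.inj hpp).1
    have h2 : γ j p' = γ i p := (Prod.mk.inj hpp).2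
    rw [← h2, ← h1]
    exact hγ1 j p'
  rw [hzero i j hne] at hpos
  exact lt_irrefl _ hpos

variable [OrderTopology K] [CompactSpace K]

theorem metrizable_of_few (hK : ∀ A : Set K, #A ≤ aleph 1 →
      #{p : K × K | IsBigGap A p.1 p.2} ≤ aleph 1)
    {Y : Type} [TopologicalSpace Y] [CompactSpace Y] [T2Space Y] (φ : CpSpace K → Y)
    (hφ : Continuous φ) (hs : Function.Surjective φ) : TopologicalSpace.MetrizableSpace Y := by
  by_contra hY
  rcases isEmpty_or_nonempty K with hK' | hK'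
  · apply hY
    have hsub : Subsingleton (CpSpace K) := ⟨fun f g => Subtype.ext (funext fun k => hK'.elim k)⟩
    have : Subsingleton Y := ⟨fun a b => by
      obtain ⟨f, rfl⟩ := hs a
      obtain ⟨g, rfl⟩ := hs b
      rw [Subsingleton.elim f g]⟩
    have : Finite Y := Finite.of_subsingleton
    infer_instance
  obtain ⟨M', hc, hm, ν, h, hν, hh, hpat⟩ := exists_coding φ hφ hs hY
  exact no_coding hc hm rfl (mk_traces_le hc hm (hK _ (mk_iUnion_le hc))) ν h hν hh hpat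

end Pool.Agent.Helper39.Cp
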