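import Mathlib
import Pool.Agent.Helper39.Cp.Assemble

set_option autoImplicit false

open Set Topology Filter

namespace Pool.Agent.Helper39.Cp

/-- The coding principle: there are a linearly ordered set `L`, monotone maps `m i : L → ℝ`
(`i < ω₁`) and functions `h i` of a sequence `z` of elements of `L`, each of which is a continuous
function of the sequence of reals `m i (z n)`, such that every `0`-`1` sequence of length `ω₁`
has the form `i ↦ h i z` for some `z`. -/
def CodingPrinciple : Prop :=
  ∃ (L : Type) (_ : LinearOrder L) (m : W1 → L → ℝ) (h : W1 → (ℕ → L) → ℝ),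
    (∀ i, Monotone (m i)) ∧
    (∀ i, Continuous[TopologicalSpace.induced (fun (z : ℕ → L) n => m i (z n)) inferInstance,
      inferInstance] (h i)) ∧
    ∀ y : W1 → Bool, ∃ z : ℕ → L, ∀ i, h i z = if y i then 1 else 0

variable {K : Type} [LinearOrder K] [TopologicalSpace K] {M : Set K}

noncomputable instance : LinearOrder (Jump K M) := by
  unfold Jump
  infer_instance

theorem bitS_mono {m : K} {a b : Jump K M ⊕ₗ ℕ} (hab : a ≤ b) (h : BitS m (ofLex a)) :
    BitS m (ofLex b) := by
  rcases hb : ofLex b with S' | k'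
  · rcases ha : ofLex a with S | k
    · have ha' : a = toLex (Sum.inl S) := ha
      have hb' : b = toLex (Sum.inl S') := hb
      rw [ha', hb', Sum.Lex.toLex_le_toLex, Sum.lex_inl_inl] at hab
      rw [ha] at h
      exact hab h
    · have ha' : a = toLex (Sum.inr k) := ha
      have hb' : b = toLex (Sum.inl S') := hb
      rw [ha', hb', Sum.Lex.toLex_le_toLex] at hab
      exact absurd hab Sum.lex_inr_inl
  · trivial

theorem bitN_mono {k : ℕ} {a b : Jump K M ⊕ₗ ℕ} (hab : a ≤ b) (h : BitN k (ofLex a)) :
    BitN k (ofLex b) := by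
  rcases ha : ofLex a with S | k0
  · rw [ha] at h
    exact absurd h (by simp [BitN])
  · rcases hb : ofLex b with S' | k'
    · have ha' : a = toLex (Sum.inr k0) := ha
      have hb' : b = toLex (Sum.inl S') := hb
      rw [ha', hb', Sum.Lex.toLex_le_toLex] at hab
      exact absurd hab Sum.lex_inr_inl
    · have ha' : a = toLex (Sum.inr k0) := ha
      have hb' : b = toLex (Sum.inr k') := hb
      rw [ha', hb', Sum.Lex.toLex_le_toLex, Sum.lex_inr_inr] at hab
      rw [ha] at h
      exact (show k ≤ k0 from h).trans hab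

theorem cant_mono (ν : ℕ → K) : Monotone fun a : Jump K M ⊕ₗ ℕ => cant ν (ofLex a) := by
  intro a b hab
  apply Cardinal.cantorFunction_le (by norm_num) (by norm_num)
  intro n
  unfold bitSeq
  split_ifs
  · simp only [decide_eq_true_eq]
    exact bitS_mono hab
  · simp only [decide_eq_true_eq]
    exact bitN_mono hab

variable [OrderTopology K] [CompactSpace K]

theorem codingPrinciple_of_nonmetrizable {Y : Type} [TopologicalSpace Y]
    [CompactSpace Y] [T2Space Y]
    (φ : CpSpace K → Y) (hφ : Continuous φ) (hs : Function.Surjective φ)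
    (hY : ¬ TopologicalSpace.MetrizableSpace Y) : CodingPrinciple := by
  classical
  rcases isEmpty_or_nonempty K with hK | hK
  · exfalso
    apply hY
    have hsub : Subsingleton (CpSpace K) := ⟨fun f g => Subtype.ext (funext fun k => hK.elim k)⟩
    have : Subsingleton Y := ⟨fun a b => by
      obtain ⟨f, rfl⟩ := hs a
      obtain ⟨g, rfl⟩ := hs b
      rw [Subsingleton.elim f g]⟩
    have : Finite Y := Finite.of_subsingleton
    infer_instance
  obtain ⟨M', -, -, ν, h, -, hcont, hpat⟩ := exists_coding φ hφ hs hY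
  have hinf : Infinite DIdx := by
    let u0 : RatPair := ⟨(0, 1), by norm_num⟩
    refine Infinite.of_injective (fun n : ℕ => (Sum.inr (n, u0, 0) : DIdx)) fun a b hab => ?_
    simpa using hab
  obtain ⟨e⟩ : Nonempty (DIdx ≃ ℕ) := nonempty_equiv_of_countable
  refine ⟨Jump K (⋃ i, M' i) ⊕ₗ ℕ, inferInstance, fun j a => cant (ν j) (ofLex a),
    fun j z => h j fun i => ofLex (z (e i)), fun j => cant_mono (ν j), fun j => ?_, fun y => ?_⟩
  · let _ : TopologicalSpace (ℕ → Jump K (⋃ i, M' i) ⊕ₗ ℕ) :=
      TopologicalSpace.induced (fun z n => cant (ν j) (ofLex (z n))) inferInstance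
    let _ := dataTop (M := ⋃ i, M' i) (ν j)
    have h1 : IsInducing (fun (z : DIdx → Jump K (⋃ i, M' i) ⊕ ℕ) i => cant (ν j) (z i)) := ⟨rfl⟩
    have h2 : IsInducing (fun (z : ℕ → Jump K (⋃ i, M' i) ⊕ₗ ℕ) n => cant (ν j) (ofLex (z n))) :=
      ⟨rfl⟩
    have h3 : Continuous fun (z : ℕ → Jump K (⋃ i, M' i) ⊕ₗ ℕ) (i : DIdx) => ofLex (z (e i)) := by
      rw [h1.continuous_iff]
      exact continuous_pi fun i => (continuous_apply (e i)).comp h2.continuous
    exact (hcont j).comp h3
  · obtain ⟨z, hz⟩ := hpat y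
    refine ⟨fun n => toLex (z (e.symm n)), fun i => ?_⟩
    rw [← hz i]
    change h i _ = h i z
    congr 1
    funext k
    simp

end Pool.Agent.Helper39.Cp
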