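import Mathlib
import Pool.Agent.Helper39.Cp.Principle

set_option autoImplicit false

open Set Topology Filter

namespace Pool.Agent.Helper39.Cp

variable {L : Type} [LinearOrder L]

/-- The initial segment of `ℕ ×ₗ L` consisting of the copies number `k < n` of `L` and of the part
`S` of the copy number `n`. -/
def seg (n : ℕ) (S : LowerSet L) : LowerSet (ℕ ×ₗ L) :=
  ⟨{p | (ofLex p).1 < n ∨ ((ofLex p).1 = n ∧ (ofLex p).2 ∈ S)}, by
    intro a b hba ha
    have hba' : toLex (ofLex b) ≤ toLex (ofLex a) := hba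
    rw [Prod.Lex.toLex_le_toLex] at hba'
    rcases hba' with h | ⟨h1, h2⟩
    · left
      rcases ha with ha | ⟨ha, -⟩
      · exact h.trans ha
      · exact ha ▸ h
    · rcases ha with ha | ⟨ha, ha'⟩
      · left
        exact h1 ▸ ha
      · right
        exact ⟨h1.trans ha, S.lower h2 ha'⟩⟩

theorem mem_seg {n k : ℕ} {S : LowerSet L} {l : L} :
    toLex (k, l) ∈ seg n S ↔ k < n ∨ (k = n ∧ l ∈ S) := Iff.rfl

/-- The order topology on the set of initial segments. -/
noncomputable abbrev segTop (P : Type) [LinearOrder P] : TopologicalSpace (LowerSet P) :=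
  Preorder.topology (LowerSet P)

section Fz

attribute [local instance] segTop

variable (P : Type) [LinearOrder P]

instance : @OrderTopology (LowerSet P) (segTop P) _ := @OrderTopology.mk _ (segTop P) _ rfl

instance : CompactSpace (LowerSet P) := inferInstance

variable {P}

theorem isClopen_mem (p : P) : IsClopen {T : LowerSet P | p ∈ T} := by
  constructor
  · have : {T : LowerSet P | p ∈ T} = Ici (LowerSet.Iic p) := by
      ext T
      simp [LowerSet.Iic_le]
    rw [this]
    exact isClosed_Ici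
  · have : {T : LowerSet P | p ∈ T} = (Iic (LowerSet.Iio p))ᶜ := by
      ext T
      simp only [mem_ofPred_eq, mem_compl_iff, mem_Iic]
      constructor
      · intro h hle
        exact lt_irrefl p (hle h)
      · intro h
        by_contra hp
        apply h
        intro q hq
        by_contra hqp
        exact hp (T.lower (not_lt.1 hqp) hq)
    rw [this]
    exact isClosed_Iic.isOpen_compl

open Classical in
/-- The function coding the sequence `z`. -/
noncomputable def fz (z : ℕ → L) (T : LowerSet (ℕ ×ₗ L)) : ℝ :=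
  ∑' n, if toLex (n, z n) ∈ T then (1 / 2 : ℝ) ^ (n + 1) else 0

theorem continuous_fz (z : ℕ → L) : Continuous (fz z) := by
  classical
  refine continuous_tsum (u := fun n => (1 / 2 : ℝ) ^ (n + 1)) ?_ ?_ ?_
  · intro n
    apply Continuous.if
    · intro T hT
      rw [(isClopen_mem (toLex (n, z n))).frontier_eq] at hT
      exact absurd hT (notMem_empty T)
    · exact continuous_const
    · exact continuous_const
  · simp_rw [pow_succ]
    exact (summable_geometric_of_lt_one (by norm_num) (by norm_num)).mul_right _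
  · intro n T
    split_ifs
    · rw [Real.norm_eq_abs, abs_of_nonneg (by positivity)]
    · simp only [norm_zero]
      positivity

/-- The constant `c n = 2 ^ (-(n+1))`. -/
noncomputable def cc (n : ℕ) : ℝ := (1 / 2 : ℝ) ^ (n + 1)

noncomputable def ss (n : ℕ) : ℝ := ∑ k ∈ Finset.range n, cc k

theorem cc_pos (n : ℕ) : 0 < cc n := by
  unfold cc
  positivity

open Classical in
theorem fz_seg (z : ℕ → L) (n : ℕ) (S : LowerSet L) :
    fz z (seg n S) = ss n + if z n ∈ S then cc n else 0 := by
  unfold fz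
  rw [tsum_eq_sum (s := Finset.range (n + 1))]
  · rw [Finset.sum_range_succ]
    congr 1
    · unfold ss cc
      apply Finset.sum_congr rfl
      intro k hk
      rw [if_pos (mem_seg.2 (Or.inl (Finset.mem_range.1 hk)))]
    · unfold cc
      by_cases h : z n ∈ S
      · rw [if_pos (mem_seg.2 (Or.inr ⟨rfl, h⟩)), if_pos h]
      · rw [if_neg, if_neg h]
        rw [mem_seg]
        rintro (h' | ⟨-, h'⟩)
        · exact lt_irrefl _ h'
        · exact h h'
  · intro k hk
    rw [if_neg]
    rw [mem_seg]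
    rw [Finset.mem_range, not_lt] at hk
    rintro (h | ⟨h, -⟩) <;> omega

/-- The key closedness property. -/
theorem exists_point {𝒮 : Set (LowerSet L)} (hbot : ⊥ ∈ 𝒮) (htop : ⊤ ∈ 𝒮) {f : LowerSet (ℕ ×ₗ L) → ℝ}
    (hf : Continuous f) (n : ℕ)
    (h1 : ∀ S ∈ 𝒮, f (seg n S) = ss n ∨ f (seg n S) = ss n + cc n)
    (h2 : f (seg n ⊥) = ss n) (h3 : f (seg n ⊤) = ss n + cc n)
    (h4 : ∀ S ∈ 𝒮, ∀ S' ∈ 𝒮, S ≤ S' → f (seg n S) ≤ f (seg n S')) :
    ∃ l : L, ∀ S ∈ 𝒮, (l ∈ S → f (seg n S) = ss n + cc n) ∧ (l ∉ S → f (seg n S) = ss n) := by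
  by_contra hcon
  push Not at hcon
  have hpos := cc_pos n
  let D : Set (LowerSet (ℕ ×ₗ L)) := {T | ∃ S ∈ 𝒮, T = seg n S ∧ f T = ss n}
  let D' : Set (LowerSet (ℕ ×ₗ L)) := {T | ∃ S ∈ 𝒮, T = seg n S ∧ f T = ss n + cc n}
  have hD : seg n ⊥ ∈ D := ⟨⊥, hbot, rfl, h2⟩
  have hD' : seg n ⊤ ∈ D' := ⟨⊤, htop, rfl, h3⟩
  have hA : f (sSup D) = ss n := by
    have hm : sSup D ∈ closure D := sSup_mem_closure ⟨_, hD⟩
    have hcl : IsClosed {T | f T = ss n} := isClosed_eq hf continuous_const
    have hsub : D ⊆ {T | f T = ss n} := by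
      rintro T ⟨S, _, _, hT⟩
      exact hT
    exact closure_minimal hsub hcl hm
  have hB : f (sInf D') = ss n + cc n := by
    have hm : sInf D' ∈ closure D' := sInf_mem_closure ⟨_, hD'⟩
    have hcl : IsClosed {T | f T = ss n + cc n} := isClosed_eq hf continuous_const
    have hsub : D' ⊆ {T | f T = ss n + cc n} := by
      rintro T ⟨S, _, _, hT⟩
      exact hT
    exact closure_minimal hsub hcl hm
  have hle : ∀ T ∈ D, ∀ T' ∈ D', T ≤ T' := by
    rintro T ⟨S, hS, rfl, hT⟩ T' ⟨S', hS', rfl, hT'⟩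
    rcases le_total S S' with h | h
    · intro p hp
      rcases hp with hp | ⟨hp, hp'⟩
      · exact Or.inl hp
      · exact Or.inr ⟨hp, h hp'⟩
    · have := h4 S' hS' S hS h
      rw [hT, hT'] at this
      linarith
  have hAB : sSup D = sInf D' := by
    apply le_antisymm
    · exact sSup_le fun T hT => le_sInf fun T' hT' => hle T hT T' hT'
    · intro p hp
      obtain ⟨k, l⟩ := p
      have hp' : toLex (k, l) ∈ sInf D' := hp
      have hgoal : toLex (k, l) ∈ sSup D := by
        rcases lt_trichotomy k n with hk | rfl | hk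
        · exact (le_sSup hD) (mem_seg.2 (Or.inl hk))
        · obtain ⟨S, hS, hcase⟩ := hcon l
          by_cases hl : l ∈ S
          · rcases h1 S hS with h | h
            · have hm : seg k S ∈ D := ⟨S, hS, rfl, h⟩
              exact (le_sSup hm) (mem_seg.2 (Or.inr ⟨rfl, hl⟩))
            · exact absurd (hcase fun _ => h).2 (fun h' => (hcase fun _ => h).1 hl)
          · rcases h1 S hS with h | h
            · exact absurd h (hcase fun h' => absurd h' hl).2
            · have hm : seg k S ∈ D' := ⟨S, hS, rfl, h⟩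
              have := (sInf_le hm) hp'
              rcases mem_seg.1 this with h' | ⟨-, h'⟩
              · exact absurd h' (lt_irrefl _)
              · exact absurd h' hl
        · have := (sInf_le hD') hp'
          rcases mem_seg.1 this with h' | ⟨h', -⟩ <;> omega
      exact hgoal
  rw [hAB, hB] at hA
  linarith

/-- The initial segment `m l < q`. -/
def lowLt (m : L → ℝ) (hm : Monotone m) (q : ℚ) : LowerSet L :=
  ⟨{l | m l < q}, fun _ _ hba ha => (hm hba).trans_lt ha⟩

/-- The initial segment `m l ≤ q`. -/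
def lowLe (m : L → ℝ) (hm : Monotone m) (q : ℚ) : LowerSet L :=
  ⟨{l | m l ≤ q}, fun _ _ hba ha => (hm hba).trans ha⟩

/-- The countable family of initial segments attached to `m`. -/
def segFam (m : L → ℝ) (hm : Monotone m) : Set (LowerSet L) :=
  {⊥} ∪ {⊤} ∪ range (lowLt m hm) ∪ range (lowLe m hm)

theorem segFam_countable (m : L → ℝ) (hm : Monotone m) : (segFam m hm).Countable :=
  (((countable_singleton _).union (countable_singleton _)).union (countable_range _)).union
    (countable_range _)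

theorem exists_functional (m : L → ℝ) (hm : Monotone m) (h : (ℕ → L) → ℝ)
    (hh : Continuous[TopologicalSpace.induced (fun (z : ℕ → L) n => m (z n)) inferInstance,
      inferInstance] h) :
    ∃ H : CpSpace (LowerSet (ℕ ×ₗ L)) → ℝ, Continuous H ∧
      ∀ z : ℕ → L, H ⟨fz z, continuous_fz z⟩ = h z := by
  classical
  let 𝒮 := segFam m hm
  have hcount : Countable 𝒮 := (segFam_countable m hm).to_subtype
  have hbot : (⊥ : LowerSet L) ∈ 𝒮 := Or.inl (Or.inl (Or.inl rfl))
  have htop : (⊤ : LowerSet L) ∈ 𝒮 := Or.inl (Or.inl (Or.inr rfl))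
  have hLt : ∀ q, lowLt m hm q ∈ 𝒮 := fun q => Or.inl (Or.inr ⟨q, rfl⟩)
  have hLe : ∀ q, lowLe m hm q ∈ 𝒮 := fun q => Or.inr ⟨q, rfl⟩
  let R : CpSpace (LowerSet (ℕ ×ₗ L)) → (ℕ × 𝒮 → ℝ) := fun f a => f.1 (seg a.1 a.2.1)
  have hR : Continuous R :=
    continuous_pi fun a => (continuous_apply (seg a.1 a.2.1)).comp continuous_subtype_val
  let C : Set (range R) := {w | ∃ z : ℕ → L, ∀ n (S : 𝒮),
    w.1 (n, S) = ss n + if z n ∈ S.1 then cc n else 0}
  have hCeq : C = {w | (∀ n (S : 𝒮), w.1 (n, S) = ss n ∨ w.1 (n, S) = ss n + cc n) ∧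
      (∀ n, w.1 (n, ⟨⊥, hbot⟩) = ss n) ∧ (∀ n, w.1 (n, ⟨⊤, htop⟩) = ss n + cc n) ∧
      (∀ n (S S' : 𝒮), S.1 ≤ S'.1 → w.1 (n, S) ≤ w.1 (n, S'))} := by
    ext w
    constructor
    · rintro ⟨z, hz⟩
      refine ⟨fun n S => ?_, fun n => ?_, fun n => ?_, fun n S S' hSS' => ?_⟩
      · rw [hz n S]
        by_cases hzn : z n ∈ S.1
        · right; rw [if_pos hzn]
        · left; rw [if_neg hzn, add_zero]
      · rw [hz n]
        simp
      · rw [hz n]
        simp
      · rw [hz n S, hz n S']
        by_cases hzn : z n ∈ S.1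
        · have hzn' : z n ∈ S'.1 := hSS' hzn
          rw [if_pos hzn, if_pos hzn']
        · rw [if_neg hzn, add_zero]
          split_ifs
          · linarith [cc_pos n]
          · linarith
    · rintro ⟨h1, h2, h3, h4⟩
      obtain ⟨_, ⟨f, rfl⟩⟩ := w
      have hp : ∀ n, ∃ l : L, ∀ S ∈ 𝒮, (l ∈ S → f.1 (seg n S) = ss n + cc n) ∧
          (l ∉ S → f.1 (seg n S) = ss n) := fun n =>
        exists_point hbot htop f.2 n (fun S hS => h1 n ⟨S, hS⟩) (h2 n) (h3 n)
          (fun S hS S' hS' hSS' => h4 n ⟨S, hS⟩ ⟨S', hS'⟩ hSS')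
      choose z hz using hp
      refine ⟨z, fun n S => ?_⟩
      by_cases hzn : z n ∈ S.1
      · rw [if_pos hzn]
        exact (hz n S.1 S.2).1 hzn
      · rw [if_neg hzn, add_zero]
        exact (hz n S.1 S.2).2 hzn
  have hev : ∀ a : ℕ × 𝒮, Continuous fun w : range R => w.1 a := fun a =>
    (continuous_apply a).comp continuous_subtype_val
  have hC : IsClosed C := by
    rw [hCeq]
    refine IsClosed.inter ?_ (IsClosed.inter ?_ (IsClosed.inter ?_ ?_))
    · change IsClosed {w : range R | ∀ n (S : 𝒮), w.1 (n, S) = ss n ∨ w.1 (n, S) = ss n + cc n}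
      simp only [ofPred_forall]
      refine isClosed_iInter fun n => isClosed_iInter fun S => ?_
      exact (isClosed_eq (hev _) continuous_const).union (isClosed_eq (hev _) continuous_const)
    · change IsClosed {w : range R | ∀ n, w.1 (n, ⟨⊥, hbot⟩) = ss n}
      simp only [ofPred_forall]
      exact isClosed_iInter fun n => isClosed_eq (hev _) continuous_const
    · change IsClosed {w : range R | ∀ n, w.1 (n, ⟨⊤, htop⟩) = ss n + cc n}
      simp only [ofPred_forall]
      exact isClosed_iInter fun n => isClosed_eq (hev _) continuous_const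
    · change IsClosed {w : range R | ∀ n (S S' : 𝒮), S.1 ≤ S'.1 → w.1 (n, S) ≤ w.1 (n, S')}
      simp only [ofPred_forall]
      exact isClosed_iInter fun n => isClosed_iInter fun S => isClosed_iInter fun S' =>
        isClosed_iInter fun _ => isClosed_le (hev _) (hev _)
  have hzC : ∀ w : C, ∃ z : ℕ → L, ∀ n (S : 𝒮),
    w.1.1 (n, S) = ss n + if z n ∈ S.1 then cc n else 0 := fun w => w.2
  choose Z hZ using hzC
  let tL : TopologicalSpace (ℕ → L) :=
    TopologicalSpace.induced (fun (z : ℕ → L) n => m (z n)) inferInstance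
  have hind : IsInducing (fun (z : ℕ → L) n => m (z n)) := ⟨rfl⟩
  have hZcont : Continuous Z := by
    rw [hind.continuous_iff]
    refine continuous_pi fun n => ?_
    change Continuous fun w : C => m (Z w n)
    rw [continuous_iff_continuousAt]
    intro w
    have hevC : ∀ a : ℕ × 𝒮, Continuous fun w : C => w.1.1 a := fun a =>
      (hev a).comp continuous_subtype_val
    refine tendsto_order.2 ⟨fun a ha => ?_, fun b hb => ?_⟩
    · obtain ⟨q, hq1, hq2⟩ := exists_rat_btwn ha
      have hnot : Z w n ∉ lowLe m hm q := fun hcon => absurd hq2 (not_lt.2 hcon)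
      have hval : w.1.1 (n, ⟨_, hLe q⟩) < ss n + cc n := by
        rw [hZ w n, if_neg hnot]
        linarith [cc_pos n]
      filter_upwards [(isOpen_lt (hevC (n, ⟨_, hLe q⟩)) continuous_const).mem_nhds hval] with w' hw'
      have hw'' : w'.1.1 (n, ⟨_, hLe q⟩) < ss n + cc n := hw'
      rw [hZ w' n] at hw''
      have : Z w' n ∉ lowLe m hm q := by
        intro hcon
        rw [if_pos hcon] at hw''
        exact lt_irrefl _ hw''
      exact hq1.trans (not_le.1 this)
    · obtain ⟨q, hq1, hq2⟩ := exists_rat_btwn hb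
      have hin : Z w n ∈ lowLt m hm q := hq1
      have hval : ss n < w.1.1 (n, ⟨_, hLt q⟩) := by
        rw [hZ w n, if_pos hin]
        linarith [cc_pos n]
      filter_upwards [(isOpen_lt continuous_const (hevC (n, ⟨_, hLt q⟩))).mem_nhds hval] with w' hw'
      have hw'' : ss n < w'.1.1 (n, ⟨_, hLt q⟩) := hw'
      rw [hZ w' n] at hw''
      have : Z w' n ∈ lowLt m hm q := by
        by_contra hcon
        rw [if_neg hcon, add_zero] at hw''
        exact lt_irrefl _ hw''
      exact (show m (Z w' n) < q from this).trans hq2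
  have hGcont : Continuous fun w : C => h (Z w) := hh.comp hZcont
  obtain ⟨G, hG⟩ := ContinuousMap.exists_restrict_eq hC (⟨fun w : C => h (Z w), hGcont⟩ : C(C, ℝ))
  refine ⟨fun f => G ⟨R f, mem_range_self f⟩, ?_, fun z => ?_⟩
  · exact G.continuous.comp (hR.subtype_mk _)
  · have hmem : (⟨R ⟨fz z, continuous_fz z⟩, mem_range_self _⟩ : range R) ∈ C :=
      ⟨z, fun n S => fz_seg z n S.1⟩
    have h1 : G ⟨R ⟨fz z, continuous_fz z⟩, mem_range_self _⟩ = h (Z ⟨_, hmem⟩) :=
      congrArg (fun q : C(C, ℝ) => q ⟨_, hmem⟩) hG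
    have hsame : ∀ n, m (Z ⟨_, hmem⟩ n) = m (z n) := by
      intro n
      have hbits : ∀ S : 𝒮, (Z ⟨_, hmem⟩ n ∈ S.1 ↔ z n ∈ S.1) := by
        intro S
        have e1 := hZ ⟨_, hmem⟩ n S
        have e2 : R ⟨fz z, continuous_fz z⟩ (n, S) = ss n + if z n ∈ S.1 then cc n else 0 :=
          fz_seg z n S.1
        have e3 : (if Z ⟨_, hmem⟩ n ∈ S.1 then cc n else 0) = if z n ∈ S.1 then cc n else 0 := by
          have : ss n + (if Z ⟨_, hmem⟩ n ∈ S.1 then cc n else 0) =
              ss n + if z n ∈ S.1 then cc n else 0 := e1.symm.trans e2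
          linarith
        have hpos := cc_pos n
        by_cases hz1 : Z ⟨_, hmem⟩ n ∈ S.1 <;> by_cases hz2 : z n ∈ S.1
        · exact iff_of_true hz1 hz2
        · rw [if_pos hz1, if_neg hz2] at e3
          exact absurd e3 hpos.ne'
        · rw [if_neg hz1, if_pos hz2] at e3
          exact absurd e3 hpos.ne
        · exact iff_of_false hz1 hz2
      rcases lt_trichotomy (m (Z ⟨_, hmem⟩ n)) (m (z n)) with hlt | heq | hgt
      · exfalso
        obtain ⟨q, hq1, hq2⟩ := exists_rat_btwn hlt
        have := (hbits ⟨_, hLt q⟩).1 (show m (Z ⟨_, hmem⟩ n) < q from hq1)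
        exact absurd (show m (z n) < q from this) (not_lt.2 hq2.le)
      · exact heq
      · exfalso
        obtain ⟨q, hq1, hq2⟩ := exists_rat_btwn hgt
        have := (hbits ⟨_, hLt q⟩).2 (show m (z n) < q from hq1)
        exact absurd (show m (Z ⟨_, hmem⟩ n) < q from this) (not_lt.2 hq2.le)
    have hins : Inseparable (Z ⟨_, hmem⟩) z :=
      hind.inseparable_iff.1 (Inseparable.of_eq (funext hsame))
    change G ⟨R ⟨fz z, continuous_fz z⟩, mem_range_self _⟩ = h z
    rw [h1]
    exact (hins.map hh).eq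

end Fz

end Pool.Agent.Helper39.Cp
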