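import Mathlib
import Pool.Agent.Helper39.Cp.Realize

set_option autoImplicit false

open Set Topology Filter

namespace Pool.Agent.Helper39.Cp

theorem exists_theta : ∃ θ : (ℕ → ℝ) → unitInterval, Continuous θ ∧
    ∀ t : unitInterval, ∃ b : ℕ → Bool, θ (fun n => if b n then 1 else 0) = t := by
  obtain ⟨ψ, hψ, hψs⟩ := exists_nat_bool_continuous_surjective_of_compact unitInterval
  let e : (ℕ → Bool) → (ℕ → ℝ) := fun b n => if b n then 1 else 0
  have he : Continuous e := by
    refine continuous_pi fun n => ?_
    exact (continuous_of_discreteTopology (f := fun c : Bool => if c then (1 : ℝ) else 0)).comp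
      (continuous_apply n)
  have hinj : Function.Injective e := by
    intro a b hab
    funext n
    have := congrFun hab n
    simp only [e] at this
    by_cases ha : a n <;> by_cases hb : b n <;> simp_all
  have hemb : IsClosedEmbedding e := he.isClosedEmbedding hinj
  obtain ⟨g, hg⟩ := ContinuousMap.exists_extension' hemb
    (⟨fun b => (ψ b : ℝ), continuous_subtype_val.comp hψ⟩ : C(ℕ → Bool, ℝ))
  refine ⟨fun x => Set.projIcc 0 1 zero_le_one (g x), continuous_projIcc.comp g.continuous,
    fun t => ?_⟩
  obtain ⟨b, hb⟩ := hψs t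
  refine ⟨b, ?_⟩
  have h1 : g (e b) = (ψ b : ℝ) := congrFun hg b
  change Set.projIcc 0 1 zero_le_one (g (e b)) = t
  rw [h1, hb, Set.projIcc_val]

theorem not_metrizable_pi : ¬ TopologicalSpace.MetrizableSpace (W1 → unitInterval) := by
  classical
  intro hm
  have hfc : FirstCountableTopology (W1 → unitInterval) := inferInstance
  obtain ⟨U, hU⟩ := (𝓝 (0 : W1 → unitInterval)).exists_antitone_basis
  have h1 : ∀ n, ∃ F : Set W1, F.Finite ∧ ∀ x : W1 → unitInterval, (∀ i ∈ F, x i = 0) → x ∈ U n := by
    intro n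
    have hmem : U n ∈ 𝓝 (0 : W1 → unitInterval) := hU.1.mem_of_mem trivial
    rw [nhds_pi, Filter.mem_pi] at hmem
    obtain ⟨I, hI, t, ht, hsub⟩ := hmem
    refine ⟨I, hI, fun x hx => hsub fun i hi => ?_⟩
    rw [hx i hi]
    exact mem_of_mem_nhds (ht i)
  choose F hF hFU using h1
  have hcount : (⋃ n, F n).Countable := countable_iUnion fun n => (hF n).countable
  obtain ⟨i, hi⟩ := exists_upper_of_countable hcount
  have hiF : ∀ n, i ∉ F n := fun n hin => lt_irrefl i (hi i (mem_iUnion.2 ⟨n, hin⟩))
  have hnhd : {x : W1 → unitInterval | x i ≠ 1} ∈ 𝓝 (0 : W1 → unitInterval) := by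
    apply IsOpen.mem_nhds
    · exact (isClosed_eq (continuous_apply i) continuous_const).isOpen_compl
    · change (0 : unitInterval) ≠ 1
      exact zero_ne_one
  obtain ⟨n, -, hn⟩ := hU.1.mem_iff.1 hnhd
  have hx : Function.update (0 : W1 → unitInterval) i 1 ∈ U n := by
    apply hFU
    intro j hj
    have hji : j ≠ i := fun h => hiF n (h ▸ hj)
    rw [Function.update_of_ne hji]
    rfl
  exact (hn hx) (Function.update_self i 1 _)

theorem t2_pi : T2Space (W1 → unitInterval) := by
  have h : T2Space unitInterval := inferInstance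
  exact @Pi.t2Space W1 (fun _ => unitInterval) _ fun _ => h

theorem compact_pi : CompactSpace (W1 → unitInterval) := by
  have h : CompactSpace unitInterval := inferInstance
  exact @Pi.compactSpace W1 (fun _ => unitInterval) _ fun _ => h

theorem nonmetrizable_of_codingPrinciple (hC : CodingPrinciple) :
    ∃ (K : Type) (_ : LinearOrder K) (_ : TopologicalSpace K) (_ : OrderTopology K)
      (_ : CompactSpace K) (f : CpSpace K → (W1 → unitInterval)),
      Continuous f ∧ Function.Surjective f := by
  classical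
  obtain ⟨L, _, m, h, hm, hh, hpat⟩ := hC
  let _ := segTop (ℕ ×ₗ L)
  refine ⟨LowerSet (ℕ ×ₗ L), inferInstance, segTop (ℕ ×ₗ L), inferInstance, inferInstance, ?_⟩
  choose H hH hHz using fun i => exists_functional (m i) (hm i) (h i) (hh i)
  obtain ⟨e⟩ := exists_equiv_prod_nat
  obtain ⟨θ, hθ, hθs⟩ := exists_theta
  refine ⟨fun f i => θ fun n => H (e.symm (i, n)) f, ?_, fun t => ?_⟩
  · exact continuous_pi fun i => hθ.comp (continuous_pi fun n => hH _)
  · choose b hb using fun i => hθs (t i)
    obtain ⟨z, hz⟩ := hpat fun j => b (e j).1 (e j).2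
    refine ⟨⟨fz z, continuous_fz z⟩, ?_⟩
    funext i
    have : (fun n => H (e.symm (i, n)) ⟨fz z, continuous_fz z⟩) = fun n => if b i n then 1 else 0 := by
      funext n
      rw [hHz, hz]
      simp
    change θ (fun n => H (e.symm (i, n)) ⟨fz z, continuous_fz z⟩) = t i
    rw [this, hb]

theorem equivalence :
    (∀ (K : Type) [LinearOrder K] [TopologicalSpace K] [OrderTopology K] [CompactSpace K]
      (Y : Type) [TopologicalSpace Y] [CompactSpace Y] [T2Space Y]
      (f : {g : K → ℝ // Continuous g} → Y),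
      Continuous f → Function.Surjective f → TopologicalSpace.MetrizableSpace Y) ↔
    ¬ CodingPrinciple := by
  constructor
  · intro hQ hC
    obtain ⟨K, i1, i2, i3, i4, f, hf, hs⟩ := nonmetrizable_of_codingPrinciple hC
    exact not_metrizable_pi (@hQ K i1 i2 i3 i4 (W1 → unitInterval) _ compact_pi t2_pi f hf hs)
  · intro hC K _ _ _ _ Y _ _ _ f hf hs
    by_contra hY
    exact hC (codingPrinciple_of_nonmetrizable f hf hs hY)

end Pool.Agent.Helper39.Cp
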